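import Mathlib

set_option autoImplicit false

/-!
# Chain games on the simplex posets: the local game

`Q d n` is the poset of the `x ∈ ℕ^d` with `∑ x_i ≤ n`. `W r v C` says that in the local game, in which Maker walks upwards
from `v`, one level at a time and through elements outside `C`, and Breaker adds an element to `C` after every step, Breaker can
achieve that Maker makes at most `r` steps. For `d = 3` an explicit tree of replies shows that Breaker can achieve `r = 6`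
if she begins.
-/

namespace Pool.Agent.J6H21.CG

/-- `Q^d_n`, the `x ∈ ℕ^d` with `∑ x_i ≤ n`, ordered componentwise -/
abbrev Q (d n : ℕ) : Type := {x : Fin d → ℕ // ∑ i, x i ≤ n}

/-- `u` is above `v` and one level higher -/
def Up {d n : ℕ} (v u : Q d n) : Prop := v ≤ u ∧ ∑ i, u.1 i = ∑ i, v.1 i + 1

/-- from `v`, with Maker to move, Breaker can achieve that Maker makes at most `r` steps -/
def W {d n : ℕ} : ℕ → Q d n → Set (Q d n) → Prop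
  | 0, v, C => ∀ u, Up v u → u ∈ C
  | r + 1, v, C => ∀ u, Up v u → u ∈ C ∨ ∃ Z : Fin d → ℕ, W r u (C ∪ {q | q = u ∨ q.1 = Z})

theorem W.mono {d n : ℕ} : ∀ {r : ℕ} {v : Q d n} {C C' : Set (Q d n)}, W r v C → C ⊆ C' → W r v C'
  | 0, _, _, _, h, hC => fun u hu => hC (h u hu)
  | r + 1, _, _, _, h, hC => fun u hu => by
      rcases h u hu with h1 | ⟨Z, h1⟩
      · exact Or.inl (hC h1)
      · exact Or.inr ⟨Z, W.mono h1 (Set.union_subset_union_left _ hC)⟩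

/-- a tree of replies: for the three possible steps of Maker the reply of Breaker and the rest of the tree -/
inductive Tr : Type
  | leaf : Tr
  | nd : ℕ × ℕ × ℕ → Tr → ℕ × ℕ × ℕ → Tr → ℕ × ℕ × ℕ → Tr → Tr

/-- is `(a, b, c)` in the list? -/
def mem3 (a b c : ℕ) (D : List (ℕ × ℕ × ℕ)) : Bool :=
  D.any fun q => Nat.beq q.1 a && (Nat.beq q.2.1 b && Nat.beq q.2.2 c)

/-- the tree is a winning strategy of Breaker: from `(a, b, c)`, where the elements of `D` are taken, Maker makes at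
most `r` steps -/
def check : Tr → ℕ → ℕ → ℕ → ℕ → List (ℕ × ℕ × ℕ) → Bool
  | .leaf, _, a, b, c, D => mem3 (a + 1) b c D && (mem3 a (b + 1) c D && mem3 a b (c + 1) D)
  | .nd _ _ _ _ _ _, 0, _, _, _, _ => false
  | .nd z1 t1 z2 t2 z3 t3, r + 1, a, b, c, D =>
      (mem3 (a + 1) b c D || check t1 r (a + 1) b c (z1 :: D)) &&
      ((mem3 a (b + 1) c D || check t2 r a (b + 1) c (z2 :: D)) &&
      (mem3 a b (c + 1) D || check t3 r a b (c + 1) (z3 :: D)))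

theorem mem3_sound {a b c : ℕ} {D : List (ℕ × ℕ × ℕ)} (h : mem3 a b c D = true) : (a, b, c) ∈ D := by
  unfold mem3 at h
  rw [List.any_eq_true] at h
  obtain ⟨q, hq, h1⟩ := h
  rw [Bool.and_eq_true, Bool.and_eq_true] at h1
  obtain ⟨h2, h3, h4⟩ := h1
  have e1 := Nat.eq_of_beq_eq_true h2
  have e2 := Nat.eq_of_beq_eq_true h3
  have e3 := Nat.eq_of_beq_eq_true h4
  obtain ⟨q1, q2, q3⟩ := q
  simp only at e1 e2 e3
  subst e1 e2 e3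
  exact hq

/-- the vector with the coordinates `a`, `b`, `c` -/
def vec (w : ℕ × ℕ × ℕ) : Fin 3 → ℕ := ![w.1, w.2.1, w.2.2]

theorem up_cases {n : ℕ} {y u : Q 3 n} (h : Up y u) {v : Fin 3 → ℕ} {a b c : ℕ} (hy : y.1 = v + vec (a, b, c)) :
    u.1 = v + vec (a + 1, b, c) ∨ u.1 = v + vec (a, b + 1, c) ∨ u.1 = v + vec (a, b, c + 1) := by
  obtain ⟨h1, h2⟩ := h
  have h10 : y.1 0 ≤ u.1 0 := h1 0
  have h11 : y.1 1 ≤ u.1 1 := h1 1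
  have h12 : y.1 2 ≤ u.1 2 := h1 2
  rw [Fin.sum_univ_three, Fin.sum_univ_three] at h2
  have y0 : y.1 0 = v 0 + a := by rw [hy]; simp [vec]
  have y1 : y.1 1 = v 1 + b := by rw [hy]; simp [vec]
  have y2 : y.1 2 = v 2 + c := by rw [hy]; simp [vec]
  have key : (u.1 0 = v 0 + (a + 1) ∧ u.1 1 = v 1 + b ∧ u.1 2 = v 2 + c) ∨
      (u.1 0 = v 0 + a ∧ u.1 1 = v 1 + (b + 1) ∧ u.1 2 = v 2 + c) ∨
      (u.1 0 = v 0 + a ∧ u.1 1 = v 1 + b ∧ u.1 2 = v 2 + (c + 1)) := by omega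
  rcases key with ⟨e0, e1, e2⟩ | ⟨e0, e1, e2⟩ | ⟨e0, e1, e2⟩
  · left; funext i; fin_cases i <;> simp [vec, e0, e1, e2]
  · right; left; funext i; fin_cases i <;> simp [vec, e0, e1, e2]
  · right; right; funext i; fin_cases i <;> simp [vec, e0, e1, e2]

theorem check_sound {n : ℕ} (v : Fin 3 → ℕ) : ∀ (t : Tr) (r a b c : ℕ) (D : List (ℕ × ℕ × ℕ)), check t r a b c D = true →
    ∀ (y : Q 3 n) (C : Set (Q 3 n)), y.1 = v + vec (a, b, c) → (∀ w ∈ D, ∀ q : Q 3 n, q.1 = v + vec w → q ∈ C) →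
      W r y C := by
  intro t
  induction t with
  | leaf =>
    intro r a b c D h y C hy hC
    have h' : mem3 (a + 1) b c D = true ∧ mem3 a (b + 1) c D = true ∧ mem3 a b (c + 1) D = true := by
      simpa [check, Bool.and_eq_true] using h
    have hall : ∀ u, Up y u → u ∈ C := by
      intro u hu
      rcases up_cases hu hy with h1 | h1 | h1
      · exact hC _ (mem3_sound h'.1) u h1
      · exact hC _ (mem3_sound h'.2.1) u h1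
      · exact hC _ (mem3_sound h'.2.2) u h1
    cases r with
    | zero => exact hall
    | succ r => exact fun u hu => Or.inl (hall u hu)
  | nd z1 t1 z2 t2 z3 t3 ih1 ih2 ih3 =>
    intro r a b c D h y C hy hC
    cases r with
    | zero => simp [check] at h
    | succ r =>
      have h' : (mem3 (a + 1) b c D = true ∨ check t1 r (a + 1) b c (z1 :: D) = true) ∧
          (mem3 a (b + 1) c D = true ∨ check t2 r a (b + 1) c (z2 :: D) = true) ∧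
          (mem3 a b (c + 1) D = true ∨ check t3 r a b (c + 1) (z3 :: D) = true) := by
        simpa [check, Bool.and_eq_true, Bool.or_eq_true] using h
      have hext : ∀ (z : ℕ × ℕ × ℕ) (u : Q 3 n), ∀ w ∈ z :: D, ∀ q : Q 3 n, q.1 = v + vec w →
          q ∈ C ∪ {q | q = u ∨ q.1 = v + vec z} := by
        intro z u w hw q hq
        rcases List.mem_cons.1 hw with h1 | h1
        · subst h1; exact Or.inr (Or.inr hq)
        · exact Or.inl (hC w h1 q hq)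
      intro u hu
      rcases up_cases hu hy with h1 | h1 | h1
      · rcases h'.1 with h2 | h2
        · exact Or.inl (hC _ (mem3_sound h2) u h1)
        · exact Or.inr ⟨v + vec z1, ih1 r _ _ _ _ h2 u _ h1 (hext z1 u)⟩
      · rcases h'.2.1 with h2 | h2
        · exact Or.inl (hC _ (mem3_sound h2) u h1)
        · exact Or.inr ⟨v + vec z2, ih2 r _ _ _ _ h2 u _ h1 (hext z2 u)⟩
      · rcases h'.2.2 with h2 | h2
        · exact Or.inl (hC _ (mem3_sound h2) u h1)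
        · exact Or.inr ⟨v + vec z3, ih3 r _ _ _ _ h2 u _ h1 (hext z3 u)⟩

/-- the tree of the replies of Breaker after her first reply `(2, 2, 2)` -/
def tree : Tr :=
  (.nd (3,1,2) (.nd (4,2,1) (.nd (5,1,1) (.nd (6,0,1) (.nd (6,1,0) (.nd (7,0,0) .leaf (5,2,0) .leaf (5,0,2)
    .leaf) (5,2,0) (.nd (6,1,0) .leaf (4,3,0) .leaf (4,1,2) .leaf) (4,0,2) (.nd (5,0,2) .leaf (4,1,2) .leaf
    (0,0,0) .leaf)) (3,2,0) (.nd (5,2,0) (.nd (6,1,0) .leaf (4,3,0) .leaf (4,1,2) .leaf) (0,0,0) .leaf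
    (3,2,1) (.nd (4,1,2) .leaf (0,0,0) .leaf (0,0,0) .leaf)) (4,0,2) (.nd (5,0,1) (.nd (0,0,0) .leaf (4,1,2)
    .leaf (0,0,0) .leaf) (3,2,1) (.nd (4,1,2) .leaf (0,0,0) .leaf (0,0,0) .leaf) (3,0,3) .leaf)) (3,3,1) (.nd
    (4,1,0) (.nd (0,0,0) .leaf (4,3,0) (.nd (5,2,0) .leaf (3,4,0) .leaf (3,2,2) .leaf) (4,1,1) (.nd (0,0,0)
    .leaf (3,2,2) .leaf (0,0,0) .leaf)) (2,3,0) (.nd (4,3,0) (.nd (5,2,0) .leaf (3,4,0) .leaf (3,2,2) .leaf)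
    (0,0,0) .leaf (2,3,1) (.nd (3,2,2) .leaf (0,0,0) .leaf (0,0,0) .leaf)) (3,2,1) (.nd (4,1,1) .leaf (2,3,1)
    .leaf (2,1,3) .leaf)) (4,0,2) (.nd (4,1,1) (.nd (5,0,1) .leaf (3,2,1) .leaf (3,0,3) .leaf) (3,2,1) (.nd
    (4,1,1) .leaf (2,3,1) .leaf (2,1,3) .leaf) (2,0,3) (.nd (3,0,3) .leaf (2,1,3) .leaf (0,0,0) .leaf)))
    (3,3,1) (.nd (4,2,1) (.nd (4,1,0) (.nd (0,0,0) .leaf (4,3,0) (.nd (5,2,0) .leaf (3,4,0) .leaf (3,2,2)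
    .leaf) (4,1,1) (.nd (0,0,0) .leaf (3,2,2) .leaf (0,0,0) .leaf)) (2,3,0) (.nd (4,3,0) (.nd (5,2,0) .leaf
    (3,4,0) .leaf (3,2,2) .leaf) (0,0,0) .leaf (2,3,1) (.nd (3,2,2) .leaf (0,0,0) .leaf (0,0,0) .leaf))
    (3,2,1) (.nd (4,1,1) .leaf (2,3,1) .leaf (2,1,3) .leaf)) (2,4,1) (.nd (3,2,0) (.nd (0,0,0) .leaf (3,4,0)
    (.nd (4,3,0) .leaf (2,5,0) .leaf (2,3,2) .leaf) (3,2,1) (.nd (0,0,0) .leaf (2,3,2) .leaf (0,0,0) .leaf))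
    (1,5,1) (.nd (3,4,0) (.nd (4,3,0) .leaf (2,5,0) .leaf (2,3,2) .leaf) (2,5,0) (.nd (3,4,0) .leaf (1,6,0)
    .leaf (1,4,2) .leaf) (1,3,2) (.nd (2,3,2) .leaf (1,4,2) .leaf (0,0,0) .leaf)) (1,3,2) (.nd (3,2,1) (.nd
    (0,0,0) .leaf (2,3,2) .leaf (0,0,0) .leaf) (1,4,1) (.nd (2,3,2) .leaf (0,0,0) .leaf (0,0,0) .leaf)
    (1,2,3) .leaf)) (1,3,2) (.nd (3,2,1) (.nd (4,1,1) .leaf (2,3,1) .leaf (2,1,3) .leaf) (2,3,1) (.nd (3,2,1)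
    .leaf (1,4,1) .leaf (1,2,3) .leaf) (1,1,3) (.nd (2,1,3) .leaf (1,2,3) .leaf (0,0,0) .leaf))) (1,0,2) (.nd
    (4,0,2) (.nd (4,1,1) (.nd (5,0,1) .leaf (3,2,1) .leaf (3,0,3) .leaf) (3,2,1) (.nd (4,1,1) .leaf (2,3,1)
    .leaf (2,1,3) .leaf) (2,0,3) (.nd (3,0,3) .leaf (2,1,3) .leaf (0,0,0) .leaf)) (1,3,2) (.nd (3,2,1) (.nd
    (4,1,1) .leaf (2,3,1) .leaf (2,1,3) .leaf) (2,3,1) (.nd (3,2,1) .leaf (1,4,1) .leaf (1,2,3) .leaf)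
    (1,1,3) (.nd (2,1,3) .leaf (1,2,3) .leaf (0,0,0) .leaf)) (0,0,0) .leaf)) (1,3,2) (.nd (3,3,1) (.nd
    (4,2,1) (.nd (5,1,1) (.nd (5,2,0) (.nd (6,1,0) .leaf (4,3,0) .leaf (4,1,2) .leaf) (4,3,0) (.nd (5,2,0)
    .leaf (3,4,0) .leaf (3,2,2) .leaf) (3,1,2) (.nd (4,1,2) .leaf (3,2,2) .leaf (0,0,0) .leaf)) (2,3,0) (.nd
    (4,3,0) (.nd (5,2,0) .leaf (3,4,0) .leaf (3,2,2) .leaf) (0,0,0) .leaf (2,3,1) (.nd (3,2,2) .leaf (0,0,0)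
    .leaf (0,0,0) .leaf)) (3,1,2) (.nd (4,1,1) (.nd (0,0,0) .leaf (3,2,2) .leaf (0,0,0) .leaf) (2,3,1) (.nd
    (3,2,2) .leaf (0,0,0) .leaf (0,0,0) .leaf) (2,1,3) .leaf)) (2,4,1) (.nd (3,2,0) (.nd (0,0,0) .leaf
    (3,4,0) (.nd (4,3,0) .leaf (2,5,0) .leaf (2,3,2) .leaf) (3,2,1) (.nd (0,0,0) .leaf (2,3,2) .leaf (0,0,0)
    .leaf)) (1,4,0) (.nd (3,4,0) (.nd (4,3,0) .leaf (2,5,0) .leaf (2,3,2) .leaf) (0,0,0) .leaf (1,4,1) (.nd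
    (2,3,2) .leaf (0,0,0) .leaf (0,0,0) .leaf)) (2,3,1) (.nd (3,2,1) .leaf (1,4,1) .leaf (1,2,3) .leaf))
    (3,1,2) (.nd (3,2,1) (.nd (4,1,1) .leaf (2,3,1) .leaf (2,1,3) .leaf) (2,3,1) (.nd (3,2,1) .leaf (1,4,1)
    .leaf (1,2,3) .leaf) (1,1,3) (.nd (2,1,3) .leaf (1,2,3) .leaf (0,0,0) .leaf))) (2,4,1) (.nd (3,3,1) (.nd
    (3,2,0) (.nd (0,0,0) .leaf (3,4,0) (.nd (4,3,0) .leaf (2,5,0) .leaf (2,3,2) .leaf) (3,2,1) (.nd (0,0,0)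
    .leaf (2,3,2) .leaf (0,0,0) .leaf)) (1,4,0) (.nd (3,4,0) (.nd (4,3,0) .leaf (2,5,0) .leaf (2,3,2) .leaf)
    (0,0,0) .leaf (1,4,1) (.nd (2,3,2) .leaf (0,0,0) .leaf (0,0,0) .leaf)) (2,3,1) (.nd (3,2,1) .leaf (1,4,1)
    .leaf (1,2,3) .leaf)) (1,5,1) (.nd (2,3,0) (.nd (0,0,0) .leaf (2,5,0) (.nd (3,4,0) .leaf (1,6,0) .leaf
    (1,4,2) .leaf) (2,3,1) (.nd (0,0,0) .leaf (1,4,2) .leaf (0,0,0) .leaf)) (0,6,1) (.nd (2,5,0) (.nd (3,4,0)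
    .leaf (1,6,0) .leaf (1,4,2) .leaf) (1,6,0) (.nd (2,5,0) .leaf (0,7,0) .leaf (0,5,2) .leaf) (0,4,2) (.nd
    (1,4,2) .leaf (0,5,2) .leaf (0,0,0) .leaf)) (0,4,2) (.nd (2,3,1) (.nd (0,0,0) .leaf (1,4,2) .leaf (0,0,0)
    .leaf) (0,5,1) (.nd (1,4,2) .leaf (0,0,0) .leaf (0,0,0) .leaf) (0,3,3) .leaf)) (0,4,2) (.nd (2,3,1) (.nd
    (3,2,1) .leaf (1,4,1) .leaf (1,2,3) .leaf) (1,4,1) (.nd (2,3,1) .leaf (0,5,1) .leaf (0,3,3) .leaf)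
    (0,2,3) (.nd (1,2,3) .leaf (0,3,3) .leaf (0,0,0) .leaf))) (0,1,2) (.nd (3,1,2) (.nd (3,2,1) (.nd (4,1,1)
    .leaf (2,3,1) .leaf (2,1,3) .leaf) (2,3,1) (.nd (3,2,1) .leaf (1,4,1) .leaf (1,2,3) .leaf) (1,1,3) (.nd
    (2,1,3) .leaf (1,2,3) .leaf (0,0,0) .leaf)) (0,4,2) (.nd (2,3,1) (.nd (3,2,1) .leaf (1,4,1) .leaf (1,2,3)
    .leaf) (1,4,1) (.nd (2,3,1) .leaf (0,5,1) .leaf (0,3,3) .leaf) (0,2,3) (.nd (1,2,3) .leaf (0,3,3) .leaf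
    (0,0,0) .leaf)) (0,0,0) .leaf)) (1,2,3) (.nd (3,1,3) (.nd (4,1,2) (.nd (5,1,1) (.nd (5,0,2) (.nd (6,0,1)
    .leaf (4,2,1) .leaf (4,0,3) .leaf) (3,2,1) (.nd (4,2,1) .leaf (0,0,0) .leaf (3,2,2) .leaf) (4,0,3) (.nd
    (5,0,2) .leaf (3,2,2) .leaf (3,0,4) .leaf)) (3,2,1) (.nd (4,1,1) (.nd (0,0,0) .leaf (0,0,0) .leaf (3,2,2)
    .leaf) (2,3,1) .leaf (2,1,3) (.nd (3,2,2) .leaf (0,0,0) .leaf (0,0,0) .leaf)) (2,0,3) (.nd (4,0,3) (.nd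
    (5,0,2) .leaf (3,2,2) .leaf (3,0,4) .leaf) (2,1,3) (.nd (3,2,2) .leaf (0,0,0) .leaf (0,0,0) .leaf)
    (0,0,0) .leaf)) (3,2,1) (.nd (3,1,2) (.nd (4,1,1) .leaf (2,3,1) .leaf (2,1,3) .leaf) (1,3,1) (.nd (2,3,1)
    .leaf (0,0,0) .leaf (1,3,2) .leaf) (2,1,3) (.nd (3,1,2) .leaf (1,3,2) .leaf (1,1,4) .leaf)) (2,1,4) (.nd
    (3,0,2) (.nd (0,0,0) .leaf (3,1,2) (.nd (0,0,0) .leaf (0,0,0) .leaf (2,2,3) .leaf) (3,0,4) (.nd (4,0,3)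
    .leaf (2,2,3) .leaf (2,0,5) .leaf)) (2,1,3) (.nd (3,1,2) .leaf (1,3,2) .leaf (1,1,4) .leaf) (1,0,4) (.nd
    (3,0,4) (.nd (4,0,3) .leaf (2,2,3) .leaf (2,0,5) .leaf) (1,1,4) (.nd (2,2,3) .leaf (0,0,0) .leaf (0,0,0)
    .leaf) (0,0,0) .leaf))) (0,2,1) (.nd (3,2,1) (.nd (3,1,2) (.nd (4,1,1) .leaf (2,3,1) .leaf (2,1,3) .leaf)
    (1,3,1) (.nd (2,3,1) .leaf (0,0,0) .leaf (1,3,2) .leaf) (2,1,3) (.nd (3,1,2) .leaf (1,3,2) .leaf (1,1,4)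
    .leaf)) (0,0,0) .leaf (0,2,4) (.nd (2,1,3) (.nd (3,1,2) .leaf (1,3,2) .leaf (1,1,4) .leaf) (0,3,2) (.nd
    (1,3,2) .leaf (0,0,0) .leaf (0,3,3) .leaf) (1,1,4) (.nd (2,1,3) .leaf (0,3,3) .leaf (0,1,5) .leaf)))
    (2,1,4) (.nd (3,1,3) (.nd (3,0,2) (.nd (0,0,0) .leaf (3,1,2) (.nd (0,0,0) .leaf (0,0,0) .leaf (2,2,3)
    .leaf) (3,0,4) (.nd (4,0,3) .leaf (2,2,3) .leaf (2,0,5) .leaf)) (2,1,3) (.nd (3,1,2) .leaf (1,3,2) .leaf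
    (1,1,4) .leaf) (1,0,4) (.nd (3,0,4) (.nd (4,0,3) .leaf (2,2,3) .leaf (2,0,5) .leaf) (1,1,4) (.nd (2,2,3)
    .leaf (0,0,0) .leaf (0,0,0) .leaf) (0,0,0) .leaf)) (0,2,4) (.nd (2,1,3) (.nd (3,1,2) .leaf (1,3,2) .leaf
    (1,1,4) .leaf) (0,3,2) (.nd (1,3,2) .leaf (0,0,0) .leaf (0,3,3) .leaf) (1,1,4) (.nd (2,1,3) .leaf (0,3,3)
    .leaf (0,1,5) .leaf)) (1,1,5) (.nd (2,0,3) (.nd (0,0,0) .leaf (2,1,3) (.nd (0,0,0) .leaf (0,0,0) .leaf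
    (1,2,4) .leaf) (2,0,5) (.nd (3,0,4) .leaf (1,2,4) .leaf (1,0,6) .leaf)) (0,2,4) (.nd (2,1,3) (.nd (0,0,0)
    .leaf (0,0,0) .leaf (1,2,4) .leaf) (0,3,3) .leaf (0,1,5) (.nd (1,2,4) .leaf (0,0,0) .leaf (0,0,0) .leaf))
    (0,1,6) (.nd (2,0,5) (.nd (3,0,4) .leaf (1,2,4) .leaf (1,0,6) .leaf) (0,2,4) (.nd (1,2,4) .leaf (0,0,0)
    .leaf (0,2,5) .leaf) (1,0,6) (.nd (2,0,5) .leaf (0,2,5) .leaf (0,0,7) .leaf))))))

theorem check_tree : check tree 6 0 0 0 [(2, 2, 2)] = true := by decide +kernel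

/-- after her first reply `v + (2, 2, 2)` Breaker achieves that Maker makes at most `6` steps -/
theorem W_six {n : ℕ} (v : Q 3 n) : W 6 v {q | q.1 = v.1 + vec (2, 2, 2)} := by
  refine check_sound v.1 tree 6 0 0 0 [(2, 2, 2)] check_tree v _ ?_ ?_
  · funext i; fin_cases i <;> simp [vec]
  · intro w hw q hq
    rw [List.mem_singleton] at hw
    subst hw
    exact hq

end Pool.Agent.J6H21.CG
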