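import Pool.Agent.J6H21.CG.Cert

set_option autoImplicit false

/-!
# Chain games on the simplex posets: the sequence game

Plays, strategies and the value of the sequence game; Breaker's strategy for `d = 3`.
-/

namespace Pool.Agent.J6H21.CG

section Defs

variable {P : Type}

/-- the moves before the move with the number `i` of the play `p` -/
def hist (p : ℕ → P) (i : ℕ) : List P := (List.range i).map p

/-- A strategy is a function of the moves made so far. It is legal if it chooses an element which is not claimed yet, as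
long as there is one. -/
def Legal (s : List P → P) : Prop := ∀ h : List P, h.Nodup → h.length < Nat.card P → s h ∉ h

/-- `p` is a play: in the moves with the numbers `0, 1, …, |P| - 1` every element is claimed once; Maker makes the moves
with even numbers, Breaker the others -/
def IsPlay (p : ℕ → P) : Prop := Set.InjOn p (Set.Iio (Nat.card P))

/-- in the play `p` the player who makes the moves with the numbers `i` with `i % 2 = e` uses the strategy `s` -/
def Follows (e : ℕ) (s : List P → P) (p : ℕ → P) : Prop := ∀ i < Nat.card P, i % 2 = e → p i = s (hist p i)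

variable [PartialOrder P]

/-- Maker claimed elements `y_1 < y_2 < … < y_k` in this temporal order -/
def SeqScore (p : ℕ → P) (k : ℕ) : Prop :=
  ∃ t : Fin k → ℕ, StrictMono t ∧ (∀ j, t j < Nat.card P ∧ t j % 2 = 0) ∧ StrictMono fun j => p (t j)

variable (P) in
/-- the largest score which Maker can guarantee in the sequence game -/
noncomputable def gseq : ℕ :=
  sSup {k | ∃ s : List P → P, Legal s ∧ ∀ p : ℕ → P, IsPlay p → Follows 0 s p → SeqScore p k}

variable (P) in
/-- the largest number of elements of a chain -/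
noncomputable def height : ℕ := sSup {k | ∃ y : Fin k → P, StrictMono y}

end Defs

section Build

variable {P : Type}

/-- the first `i` moves if both players use the strategies `s` and `s'` -/
def build (s s' : List P → P) : ℕ → List P
  | 0 => []
  | i + 1 => build s s' i ++ [if i % 2 = 0 then s (build s s' i) else s' (build s s' i)]

/-- the play with the strategies `s` and `s'` -/
def playOf (s s' : List P → P) (i : ℕ) : P := if i % 2 = 0 then s (build s s' i) else s' (build s s' i)

theorem hist_succ (p : ℕ → P) (i : ℕ) : hist p (i + 1) = hist p i ++ [p i] := by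
  simp [hist, List.range_succ]

theorem hist_length (p : ℕ → P) (i : ℕ) : (hist p i).length = i := by simp [hist]

theorem mem_hist {p : ℕ → P} {i : ℕ} {x : P} : x ∈ hist p i ↔ ∃ j < i, p j = x := by
  simp [hist]

theorem hist_playOf (s s' : List P → P) (i : ℕ) : hist (playOf s s') i = build s s' i := by
  induction i with
  | zero => simp [hist, build]
  | succ i ih => rw [hist_succ, ih]; rfl

theorem nodup_hist_of_injOn {p : ℕ → P} {N i : ℕ} (h : Set.InjOn p (Set.Iio N)) (hi : i ≤ N) : (hist p i).Nodup := by
  unfold hist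
  refine List.Nodup.map_on ?_ List.nodup_range
  intro x hx y hy hxy
  rw [List.mem_range] at hx hy
  exact h (Set.mem_Iio.2 (by omega)) (Set.mem_Iio.2 (by omega)) hxy

theorem exists_play {s s' : List P → P} (hs : Legal s) (hs' : Legal s') :
    ∃ p : ℕ → P, IsPlay p ∧ Follows 0 s p ∧ Follows 1 s' p := by
  refine ⟨playOf s s', ?_, ?_, ?_⟩
  · have key : ∀ i ≤ Nat.card P, (hist (playOf s s') i).Nodup := by
      intro i
      induction i with
      | zero => intro _; simp [hist]
      | succ i ih =>
        intro hi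
        have h1 := ih (by omega)
        rw [hist_succ]
        have h2 : playOf s s' i ∉ hist (playOf s s') i := by
          have hl : (hist (playOf s s') i).length < Nat.card P := by rw [hist_length]; omega
          unfold playOf
          split
          · rw [← hist_playOf s s' i]
            exact hs _ h1 hl
          · rw [← hist_playOf s s' i]
            exact hs' _ h1 hl
        rw [List.nodup_append]
        refine ⟨h1, by simp, ?_⟩
        intro x hx y hy
        rw [List.mem_singleton] at hy
        subst hy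
        rintro rfl
        exact h2 hx
    have h := key _ le_rfl
    unfold hist at h
    intro i hi j hj hij
    rw [Set.mem_Iio] at hi hj
    exact List.inj_on_of_nodup_map h (List.mem_range.2 hi) (List.mem_range.2 hj) hij
  · intro i _ hi
    rw [hist_playOf]
    unfold playOf
    rw [if_pos hi]
  · intro i _ hi
    rw [hist_playOf]
    unfold playOf
    rw [if_neg (by omega)]

end Build

instance (d n : ℕ) : Finite (Q d n) := by
  have h : Function.Injective (fun x : Q d n => fun i => (⟨x.1 i, by
      have h1 := x.2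
      have h2 : x.1 i ≤ ∑ i, x.1 i := Finset.single_le_sum (fun _ _ => Nat.zero_le _) (Finset.mem_univ i)
      omega⟩ : Fin (n + 1))) := by
    intro x y hxy
    apply Subtype.ext
    funext i
    have := congrFun hxy i
    simpa using this
  exact Finite.of_injective _ h

instance (d n : ℕ) : Inhabited (Q d n) := ⟨⟨0, by simp⟩⟩

/-- the invariant of Breaker's strategy after the first `m` moves of `p` -/
def Good {n : ℕ} (p : ℕ → Q 3 n) (m : ℕ) : Prop :=
  ∃ ρ : ℕ → ℕ, ∀ i < m, i % 2 = 0 → ρ i ≤ 6 ∧ W (ρ i) (p i) (p '' Set.Iio m) ∧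
    ∀ j, i < j → j < m → j % 2 = 0 → Up (p i) (p j) → ρ j < ρ i

theorem good_congr {n : ℕ} {p p' : ℕ → Q 3 n} {m : ℕ} (h : ∀ i < m, p i = p' i) (hg : Good p m) : Good p' m := by
  obtain ⟨ρ, hρ⟩ := hg
  have himg : p '' Set.Iio m = p' '' Set.Iio m := Set.image_congr fun i hi => h i hi
  refine ⟨ρ, fun i hi he => ?_⟩
  obtain ⟨h1, h2, h3⟩ := hρ i hi he
  refine ⟨h1, ?_, fun j hij hj hje hup => ?_⟩
  · rw [← himg, ← h i hi]; exact h2
  · refine h3 j hij hj hje ?_
    rw [h i hi, h j hj]; exact hup

/-- the answer to the move `p m` of Maker -/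
theorem reply {n : ℕ} {p : ℕ → Q 3 n} {m : ℕ} (hm : m % 2 = 0) (hg : Good p m) (hnew : p m ∉ p '' Set.Iio m) :
    ∃ Z : Fin 3 → ℕ, ∀ m', (m' = m + 1 ∨ m' = m + 2) → ∀ p' : ℕ → Q 3 n, (∀ i ≤ m, p' i = p i) →
      (∀ q : Q 3 n, q.1 = Z → q ∈ p' '' Set.Iio m') → Good p' m' := by
  classical
  obtain ⟨ρ, hρ⟩ := hg
  -- the number of the remaining steps from `p m`
  have key : ∃ (r : ℕ) (Z : Fin 3 → ℕ), r ≤ 6 ∧ W r (p m) (p '' Set.Iio m ∪ {q | q = p m ∨ q.1 = Z}) ∧
      ∀ i < m, i % 2 = 0 → Up (p i) (p m) → r < ρ i := by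
    by_cases hex : ∃ i, i < m ∧ i % 2 = 0 ∧ Up (p i) (p m)
    · obtain ⟨i, ⟨hi, hie, hup⟩, hmin⟩ : ∃ i, (i < m ∧ i % 2 = 0 ∧ Up (p i) (p m)) ∧
          ∀ j, (j < m ∧ j % 2 = 0 ∧ Up (p j) (p m)) → ρ i ≤ ρ j := by
        have hne : ({i | i < m ∧ i % 2 = 0 ∧ Up (p i) (p m)} : Set ℕ).Nonempty := hex
        obtain ⟨v, ⟨i, hi, rfl⟩, hv⟩ : ∃ v ∈ ρ '' {i | i < m ∧ i % 2 = 0 ∧ Up (p i) (p m)},
            ∀ w ∈ ρ '' {i | i < m ∧ i % 2 = 0 ∧ Up (p i) (p m)}, v ≤ w :=
          ⟨_, Nat.sInf_mem (hne.image ρ), fun w hw => Nat.sInf_le hw⟩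
        exact ⟨i, hi, fun j hj => hv _ ⟨j, hj, rfl⟩⟩
      obtain ⟨h1, h2, _⟩ := hρ i hi hie
      cases hr : ρ i with
      | zero =>
        rw [hr] at h2
        exact absurd (h2 (p m) hup) hnew
      | succ r =>
        rw [hr] at h2
        rcases h2 (p m) hup with h3 | ⟨Z, h3⟩
        · exact absurd h3 hnew
        · refine ⟨r, Z, by omega, h3, fun j hj hje hju => ?_⟩
          have := hmin j ⟨hj, hje, hju⟩
          omega
    · refine ⟨6, (p m).1 + vec (2, 2, 2), le_rfl, ?_, fun i hi hie hup => absurd ⟨i, hi, hie, hup⟩ hex⟩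
      refine (W_six (p m)).mono fun q hq => Or.inr (Or.inr hq)
  obtain ⟨r, Z, hr6, hW, hlt⟩ := key
  refine ⟨Z, fun m' hm' p' hp' hZ => ?_⟩
  have hsub1 : p '' Set.Iio m ⊆ p' '' Set.Iio m' := by
    rintro _ ⟨i, hi, rfl⟩
    rw [Set.mem_Iio] at hi
    exact ⟨i, Set.mem_Iio.2 (by omega), hp' i (by omega)⟩
  have hsub2 : p '' Set.Iio m ∪ {q | q = p m ∨ q.1 = Z} ⊆ p' '' Set.Iio m' := by
    rintro q (hq | hq | hq)
    · exact hsub1 hq
    · rw [hq]; exact ⟨m, Set.mem_Iio.2 (by omega), hp' m le_rfl⟩
    · exact hZ q hq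
  refine ⟨Function.update ρ m r, fun i hi hie => ?_⟩
  have him : i < m ∨ i = m := by omega
  rcases him with him | rfl
  · obtain ⟨h1, h2, h3⟩ := hρ i him hie
    rw [Function.update_of_ne (by omega : i ≠ m)]
    refine ⟨h1, ?_, fun j hij hj hje hup => ?_⟩
    · rw [hp' i (by omega)]
      exact h2.mono hsub1
    · have hjm : j < m ∨ j = m := by omega
      rcases hjm with hjm | rfl
      · rw [Function.update_of_ne (by omega : j ≠ m)]
        refine h3 j hij hjm hje ?_
        rw [← hp' i (by omega), ← hp' j (by omega)]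
        exact hup
      · rw [Function.update_self]
        refine hlt i him hie ?_
        rw [← hp' i (by omega), ← hp' j (by omega)]
        exact hup
  · rw [Function.update_self]
    refine ⟨hr6, ?_, fun j hij hj hje _ => by omega⟩
    rw [hp' i le_rfl]
    exact hW.mono hsub2

/-- the invariant for lists -/
def GoodL {n : ℕ} (h : List (Q 3 n)) : Prop := Good (fun i => h.getD i default) h.length

theorem goodL_hist {n : ℕ} {p : ℕ → Q 3 n} {m : ℕ} : GoodL (hist p m) ↔ Good p m := by
  have h : ∀ i < m, (hist p m).getD i default = p i := by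
    intro i hi
    simp [hist, List.getD_eq_getElem?_getD, hi]
  unfold GoodL
  rw [hist_length]
  exact ⟨good_congr h, good_congr fun i hi => (h i hi).symm⟩

open Classical in
/-- Breaker's strategy -/
noncomputable def strat {n : ℕ} (h : List (Q 3 n)) : Q 3 n :=
  if H : ∃ z, z ∉ h ∧ GoodL (h ++ [z]) then H.choose else if H2 : ∃ z, z ∉ h then H2.choose else default

theorem exists_not_mem {P : Type} [Finite P] {h : List P} (hl : h.length < Nat.card P) : ∃ z, z ∉ h := by
  classical
  have := Fintype.ofFinite P
  by_contra hc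
  push Not at hc
  have h1 : (Finset.univ : Finset P) ⊆ h.toFinset := fun z _ => List.mem_toFinset.2 (hc z)
  have h2 := Finset.card_le_card h1
  have h3 := List.toFinset_card_le h
  rw [Finset.card_univ, ← Nat.card_eq_fintype_card] at h2
  omega

theorem strat_legal (n : ℕ) : Legal (strat (n := n)) := by
  intro h _ hl
  unfold strat
  split
  · rename_i H
    exact H.choose_spec.1
  · split
    · rename_i H2
      exact H2.choose_spec
    · rename_i H2
      exact absurd (exists_not_mem hl) H2

theorem good_play {n : ℕ} {p : ℕ → Q 3 n} (hp : IsPlay p) (hf : Follows 1 strat p) :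
    ∀ m ≤ Nat.card (Q 3 n), (m % 2 = 0 ∨ m = Nat.card (Q 3 n)) → Good p m := by
  classical
  intro m
  induction m using Nat.strong_induction_on with
  | _ m ih =>
    intro hm hpar
    rcases Nat.eq_zero_or_pos m with h0 | h0
    · subst h0
      exact ⟨fun _ => 0, fun i hi => absurd hi (by omega)⟩
    · by_cases hodd : m % 2 = 1
      · -- the last move is a move of Maker
        have hmN : m = Nat.card (Q 3 n) := by omega
        have hg := ih (m - 1) (by omega) (by omega) (Or.inl (by omega))
        have hnew : p (m - 1) ∉ p '' Set.Iio (m - 1) := by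
          rintro ⟨j, hj, hjm⟩
          rw [Set.mem_Iio] at hj
          have := hp (Set.mem_Iio.2 (by omega)) (Set.mem_Iio.2 (by omega)) hjm
          omega
        obtain ⟨Z, hZ⟩ := reply (by omega) hg hnew
        refine hZ m (Or.inl (by omega)) p (fun _ _ => rfl) fun q _ => ?_
        have huniv : p '' Set.Iio m = Set.univ := by
          rw [Set.eq_univ_iff_ncard, Set.InjOn.ncard_image (hmN ▸ hp), ← hmN]
          simp
        rw [huniv]; trivial
      · have hg := ih (m - 2) (by omega) (by omega) (Or.inl (by omega))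
        have hnew : p (m - 2) ∉ p '' Set.Iio (m - 2) := by
          rintro ⟨j, hj, hjm⟩
          rw [Set.mem_Iio] at hj
          have := hp (Set.mem_Iio.2 (by omega)) (Set.mem_Iio.2 (by omega)) hjm
          omega
        obtain ⟨Z, hZ⟩ := reply (by omega) hg hnew
        have hstr : p (m - 1) = strat (hist p (m - 1)) := hf (m - 1) (by omega) (by omega)
        have hex : ∃ z, z ∉ hist p (m - 1) ∧ GoodL (hist p (m - 1) ++ [z]) := by
          have hgood : ∀ z : Q 3 n, (∀ q : Q 3 n, q.1 = Z → q = z ∨ q ∈ hist p (m - 1)) →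
              GoodL (hist p (m - 1) ++ [z]) := by
            intro z hz
            have e1 : hist p (m - 1) ++ [z] = hist (Function.update p (m - 1) z) m := by
              have e2 : m = (m - 1) + 1 := by omega
              rw [e2, hist_succ]
              simp only [Nat.add_sub_cancel, Function.update_self, List.append_cancel_right_eq]
              unfold hist
              refine List.map_congr_left fun j hj => ?_
              rw [List.mem_range] at hj
              rw [Function.update_of_ne (by omega)]
            rw [e1, goodL_hist]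
            refine hZ m (Or.inr (by omega)) _ (fun i hi => Function.update_of_ne (by omega) _ _) fun q hq => ?_
            rcases hz q hq with h1 | h1
            · exact ⟨m - 1, Set.mem_Iio.2 (by omega), by rw [Function.update_self, h1]⟩
            · obtain ⟨j, hj, hjq⟩ := mem_hist.1 h1
              exact ⟨j, Set.mem_Iio.2 (by omega), by rw [Function.update_of_ne (by omega), hjq]⟩
          by_cases hq : ∃ q : Q 3 n, q.1 = Z ∧ q ∉ hist p (m - 1)
          · obtain ⟨q, hq1, hq2⟩ := hq
            exact ⟨q, hq2, hgood q fun q' hq' => Or.inl (Subtype.ext (hq'.trans hq1.symm))⟩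
          · push Not at hq
            obtain ⟨z, hz⟩ := exists_not_mem (P := Q 3 n) (h := hist p (m - 1)) (by rw [hist_length]; omega)
            exact ⟨z, hz, hgood z fun q' hq' => Or.inr (hq q' hq')⟩
        have h5 : GoodL (hist p (m - 1) ++ [p (m - 1)]) := by
          rw [hstr]
          unfold strat
          rw [dif_pos hex]
          exact hex.choose_spec.2
        have e2 : m = (m - 1) + 1 := by omega
        rw [← hist_succ, goodL_hist, ← e2] at h5
        exact h5

/-- the level of the `j`-th element -/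
theorem level_lt {d n : ℕ} {v u : Q d n} (h : v < u) : ∑ i, v.1 i < ∑ i, u.1 i := by
  have h1 : v.1 < u.1 := h
  exact Finset.sum_lt_sum (fun i _ => h1.le i) (by
    obtain ⟨_, i, hi⟩ := Pi.lt_def.1 h1
    exact ⟨i, Finset.mem_univ i, hi⟩)

theorem score_le {n : ℕ} {p : ℕ → Q 3 n} (hg : Good p (Nat.card (Q 3 n))) {k : ℕ} (hk : SeqScore p k) :
    k ≤ n + 1 - (n + 1) / 8 := by
  obtain ⟨ρ, hρ⟩ := hg
  obtain ⟨t, ht, htN, hpt⟩ := hk
  rcases Nat.eq_zero_or_pos k with h0 | h0
  · omega
  -- extend to all natural numbers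
  set L : ℕ → ℕ := fun j => if h : j < k then ∑ i, (p (t ⟨j, h⟩)).1 i else 0 with hL
  have hLval : ∀ j (h : j < k), L j = ∑ i, (p (t ⟨j, h⟩)).1 i := fun j h => by rw [hL]; simp [h]
  have hstep : ∀ j, j + 1 < k → L j < L (j + 1) := by
    intro j hj
    rw [hLval j (by omega), hLval (j + 1) hj]
    exact level_lt (hpt (by simp [Fin.lt_def]))
  have hLn : ∀ j, j < k → L j ≤ n := by
    intro j hj
    rw [hLval j hj]
    exact (p (t ⟨j, hj⟩)).2
  have hup : ∀ j (h : j + 1 < k), L (j + 1) = L j + 1 → ρ (t ⟨j + 1, h⟩) < ρ (t ⟨j, by omega⟩) := by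
    intro j h hlev
    have hlt : t ⟨j, by omega⟩ < t ⟨j + 1, h⟩ := ht (by simp [Fin.lt_def])
    refine (hρ (t ⟨j, by omega⟩) (htN _).1 (htN _).2).2.2 (t ⟨j + 1, h⟩) hlt (htN _).1 (htN _).2 ⟨?_, ?_⟩
    · exact (hpt (show (⟨j, by omega⟩ : Fin k) < ⟨j + 1, h⟩ by simp [Fin.lt_def])).le
    · rw [← hLval (j + 1) h, hlev, hLval j (by omega)]
  have hmono : ∀ j s, j + s < k → L j + s ≤ L (j + s) := by
    intro j s
    induction s with
    | zero => intro _; simp
    | succ s ih =>
      intro h
      have h1 := ih (by omega)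
      have h2 := hstep (j + s) (by omega)
      have h3 : j + (s + 1) = j + s + 1 := rfl
      rw [h3]
      omega
  -- among eight consecutive members of the chain a level is skipped
  have hskip : ∀ j, j + 7 < k → L j + 8 ≤ L (j + 7) := by
    intro j hj
    by_contra hc
    have h7 := hmono j 7 hj
    have e7 : L (j + 7) = L j + 7 := by omega
    have hlev : ∀ s, s < 7 → L (j + s + 1) = L (j + s) + 1 := by
      intro s hs
      have h1 := hmono j s (by omega)
      have h2 := hmono (j + s + 1) (6 - s) (by omega)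
      have h3 : j + s + 1 + (6 - s) = j + 7 := by omega
      rw [h3] at h2
      have h4 := hstep (j + s) (by omega)
      have h5 := hmono (j + s) (7 - s) (by omega)
      have h6 : j + s + (7 - s) = j + 7 := by omega
      rw [h6] at h5
      omega
    have hρs : ∀ s (hs : s ≤ 7), ρ (t ⟨j + s, by omega⟩) + s ≤ 6 := by
      intro s
      induction s with
      | zero => intro _; simpa using (hρ (t ⟨j, by omega⟩) (htN _).1 (htN _).2).1
      | succ s ih =>
        intro hs
        have h1 := ih (by omega)
        have h2 := hup (j + s) (by omega) (hlev s (by omega))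
        have h3 : ρ (t ⟨j + (s + 1), by omega⟩) = ρ (t ⟨j + s + 1, by omega⟩) := rfl
        omega
    have := hρs 7 le_rfl
    omega
  have hblock : ∀ q s, s + 7 * q < k → s + 8 * q ≤ L (s + 7 * q) := by
    intro q
    induction q with
    | zero =>
      intro s hs
      have h1 := hmono 0 s (by omega)
      simp only [Nat.zero_add] at h1
      simp only [Nat.mul_zero, Nat.add_zero]
      omega
    | succ q ih =>
      intro s hs
      have h1 := ih s (by omega)
      have h2 := hskip (s + 7 * q) (by omega)
      have h3 : s + 7 * q + 7 = s + 7 * (q + 1) := by ring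
      rw [h3] at h2
      omega
  have hfin := hblock ((k - 1) / 7) ((k - 1) % 7) (by omega)
  have hfin2 := hLn ((k - 1) % 7 + 7 * ((k - 1) / 7)) (by omega)
  omega

theorem breaker_three (n : ℕ) : ∃ s : List (Q 3 n) → Q 3 n, Legal s ∧ ∀ p : ℕ → Q 3 n, IsPlay p → Follows 1 s p →
    ∀ k, SeqScore p k → k ≤ n + 1 - (n + 1) / 8 :=
  ⟨strat, strat_legal n, fun _ hp hf _ hk => score_le (good_play hp hf _ le_rfl (Or.inr rfl)) hk⟩

theorem gseq_le_of_breaker {P : Type} [PartialOrder P] {K : ℕ} (h : ∃ s : List P → P, Legal s ∧ ∀ p : ℕ → P, IsPlay p →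
    Follows 1 s p → ∀ k, SeqScore p k → k ≤ K) : gseq P ≤ K := by
  obtain ⟨s', hs', h⟩ := h
  refine csSup_le' ?_
  rintro k ⟨s, hs, hk⟩
  obtain ⟨p, hp, h0, h1⟩ := exists_play hs hs'
  exact h p hp h1 k (hk p hp h0)

theorem height_three (d n : ℕ) (hd : 1 ≤ d) : height (Q d n) = n + 1 := by
  have hub : ∀ k, (∃ y : Fin k → Q d n, StrictMono y) → k ≤ n + 1 := by
    rintro k ⟨y, hy⟩
    rcases Nat.eq_zero_or_pos k with h0 | h0
    · omega
    have key : ∀ j (hj : j < k), j ≤ ∑ i, (y ⟨j, hj⟩).1 i := by
      intro j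
      induction j with
      | zero => intro _; omega
      | succ j ih =>
        intro hj
        have h1 := ih (by omega)
        have h2 := level_lt (hy (show (⟨j, by omega⟩ : Fin k) < ⟨j + 1, hj⟩ by simp [Fin.lt_def]))
        omega
    have h1 := key (k - 1) (by omega)
    have h2 := (y ⟨k - 1, by omega⟩).2
    omega
  refine le_antisymm (csSup_le' hub) (le_csSup ⟨n + 1, hub⟩ ?_)
  refine ⟨fun j => ⟨fun i => if i = ⟨0, hd⟩ then (j : ℕ) else 0, ?_⟩, ?_⟩
  · rw [Finset.sum_ite_eq' Finset.univ]
    simp only [Finset.mem_univ, if_true]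
    omega
  · intro a b hab
    have hab' : (a : ℕ) < b := hab
    show (fun i : Fin d => if i = ⟨0, hd⟩ then (a : ℕ) else 0) < fun i => if i = ⟨0, hd⟩ then (b : ℕ) else 0
    rw [Pi.lt_def]
    refine ⟨fun i => ?_, ⟨0, hd⟩, ?_⟩
    · by_cases hi : i = ⟨0, hd⟩ <;> simp [hi]
      omega
    · simpa using hab'

end Pool.Agent.J6H21.CG
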