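import Pool.Agent.J6H21.CG.Game

set_option autoImplicit false

/-!
# Chain games on the simplex posets: Maker's strategy on `Q^3_n`, `n ≤ 6`

A certificate for the local game: from the least element Maker can make `6` steps.
-/

namespace Pool.Agent.J6H21.CG

/-- Breaker moves; Maker, who stands at `x`, can make `r` more steps -/
def SV {d n : ℕ} : ℕ → Q d n → Set (Q d n) → Prop
  | 0, _, _ => True
  | r + 1, x, C => ∀ z : Q d n, ∃ u, Up x u ∧ u ∉ C ∧ u ≠ z ∧ SV r u (C ∪ {q | q = z ∨ q = u})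

/-- a list of answers: `entry i Z t s` says that the step in the direction `i` is good against the moves in `Z` and all moves
which are not above the new position; `t` is the strategy after this step, and `s` are the other answers -/
inductive Ms : Type
  | fin : Ms
  | entry : ℕ → List (ℕ × ℕ × ℕ) → Ms → Ms → Ms

/-- the step in the direction `i` -/
def bump (i : ℕ) (x : ℕ × ℕ × ℕ) : ℕ × ℕ × ℕ :=
  match i with
  | 0 => (x.1 + 1, x.2.1, x.2.2)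
  | 1 => (x.1, x.2.1 + 1, x.2.2)
  | _ => (x.1, x.2.1, x.2.2 + 1)

/-- `u ≤ z` -/
def leq (u z : ℕ × ℕ × ℕ) : Bool := Nat.ble u.1 z.1 && (Nat.ble u.2.1 z.2.1 && Nat.ble u.2.2 z.2.2)

/-- `z` is in the list -/
def memL (z : ℕ × ℕ × ℕ) (D : List (ℕ × ℕ × ℕ)) : Bool := mem3 z.1 z.2.1 z.2.2 D

/-- `u = z` -/
def eqL (u z : ℕ × ℕ × ℕ) : Bool := Nat.beq u.1 z.1 && (Nat.beq u.2.1 z.2.1 && Nat.beq u.2.2 z.2.2)

/-- one of the entries answers the move `z` -/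
def cov : Ms → ℕ × ℕ × ℕ → List (ℕ × ℕ × ℕ) → ℕ × ℕ × ℕ → Bool
  | .fin, _, _, _ => false
  | .entry i Z _ s, x, D, z =>
      (!(eqL (bump i x) z) && (memL z Z || (memL z D || !(leq (bump i x) z)))) || cov s x D z

/-- all moves at distance at most `r` above `x` are answered -/
def covAll (t : Ms) (r : ℕ) (x : ℕ × ℕ × ℕ) (D : List (ℕ × ℕ × ℕ)) : Bool :=
  (List.range (r + 1)).all fun i => (List.range (r + 1 - i)).all fun j => (List.range (r + 1 - i - j)).all fun k =>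
    cov t x D (x.1 + i, x.2.1 + j, x.2.2 + k)

/-- the entries are correct, with `r` further steps after the step of the entry -/
def valid : Ms → ℕ → ℕ × ℕ × ℕ → List (ℕ × ℕ × ℕ) → Bool
  | .fin, _, _, _ => true
  | .entry i _ _ s, 0, x, D => !(memL (bump i x) D) && valid s 0 x D
  | .entry i Z t s, r + 1, x, D =>
      (!(memL (bump i x) D) && (covAll t (r + 1) (bump i x) (Z ++ D) && valid t r (bump i x) (Z ++ D))) &&
        valid s (r + 1) x D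

theorem leq_iff {u z : ℕ × ℕ × ℕ} : leq u z = true ↔ u.1 ≤ z.1 ∧ u.2.1 ≤ z.2.1 ∧ u.2.2 ≤ z.2.2 := by
  unfold leq
  rw [Bool.and_eq_true, Bool.and_eq_true, Nat.ble_eq, Nat.ble_eq, Nat.ble_eq]

theorem eqL_iff {u z : ℕ × ℕ × ℕ} : eqL u z = true ↔ u = z := by
  unfold eqL
  rw [Bool.and_eq_true, Bool.and_eq_true, Nat.beq_eq, Nat.beq_eq, Nat.beq_eq]
  obtain ⟨a, b, c⟩ := u
  obtain ⟨a', b', c'⟩ := z
  simp [Prod.ext_iff]

theorem memL_iff {z : ℕ × ℕ × ℕ} {D : List (ℕ × ℕ × ℕ)} : memL z D = true ↔ z ∈ D := by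
  constructor
  · intro h
    exact mem3_sound h
  · intro h
    unfold memL mem3
    rw [List.any_eq_true]
    exact ⟨z, h, by simp⟩

/-- the triple of an element -/
def tri {n : ℕ} (q : Q 3 n) : ℕ × ℕ × ℕ := (q.1 0, q.1 1, q.1 2)

theorem vec_tri {n : ℕ} (q : Q 3 n) : vec (tri q) = q.1 := by
  funext i; fin_cases i <;> simp [vec, tri]

theorem tri_inj {n : ℕ} {q q' : Q 3 n} (h : tri q = tri q') : q = q' := by
  apply Subtype.ext
  rw [← vec_tri q, ← vec_tri q', h]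

theorem le_iff_leq {n : ℕ} {q q' : Q 3 n} : q ≤ q' ↔ leq (tri q) (tri q') = true := by
  rw [leq_iff]
  constructor
  · intro h
    exact ⟨h 0, h 1, h 2⟩
  · rintro ⟨h0, h1, h2⟩ i
    fin_cases i
    · exact h0
    · exact h1
    · exact h2

/-- the level of a triple -/
def lv (x : ℕ × ℕ × ℕ) : ℕ := x.1 + x.2.1 + x.2.2

theorem lv_tri {n : ℕ} (q : Q 3 n) : lv (tri q) = ∑ i, q.1 i := by
  rw [Fin.sum_univ_three]; rfl

theorem lv_bump (i : ℕ) (x : ℕ × ℕ × ℕ) : lv (bump i x) = lv x + 1 := by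
  unfold bump lv
  split <;> simp only <;> omega

theorem leq_bump (i : ℕ) (x : ℕ × ℕ × ℕ) : leq x (bump i x) = true := by
  rw [leq_iff]
  unfold bump
  split <;> simp

theorem leq_trans {x y z : ℕ × ℕ × ℕ} (h1 : leq x y = true) (h2 : leq y z = true) : leq x z = true := by
  rw [leq_iff] at *
  omega

/-- the element with a given triple -/
def ofTri {n : ℕ} (x : ℕ × ℕ × ℕ) (h : lv x ≤ n) : Q 3 n := ⟨vec x, by
  rw [Fin.sum_univ_three]
  simpa [vec, lv] using h⟩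

theorem tri_ofTri {n : ℕ} (x : ℕ × ℕ × ℕ) (h : lv x ≤ n) : tri (ofTri x h) = x := by
  simp [tri, ofTri, vec]

theorem cov_outside {t : Ms} {x z : ℕ × ℕ × ℕ} {D : List (ℕ × ℕ × ℕ)} {z₀ : ℕ × ℕ × ℕ} (h : cov t x D z₀ = true)
    (hz : ¬ leq x z = true) : cov t x D z = true := by
  cases t with
  | fin => simp [cov] at h
  | entry i Z t s =>
    have h1 : ¬ leq (bump i x) z = true := fun h2 => hz (leq_trans (leq_bump i x) h2)
    have h2 : ¬ eqL (bump i x) z = true := by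
      rw [eqL_iff]
      rintro rfl
      exact hz (leq_bump i x)
    rw [Bool.not_eq_true] at h1 h2
    simp [cov, h1, h2]

theorem covAll_cov {n : ℕ} {t : Ms} {r : ℕ} {x : ℕ × ℕ × ℕ} {D : List (ℕ × ℕ × ℕ)} (h : covAll t r x D = true)
    (hn : n ≤ lv x + r) (z : Q 3 n) : cov t x D (tri z) = true := by
  unfold covAll at h
  simp only [List.all_eq_true, List.mem_range] at h
  by_cases hz : leq x (tri z) = true
  · have hz2 := leq_iff.1 hz
    have hlv : lv (tri z) ≤ n := by rw [lv_tri]; exact z.2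
    unfold lv at hlv hn
    have h1 := h ((tri z).1 - x.1) (by omega) ((tri z).2.1 - x.2.1) (by omega) ((tri z).2.2 - x.2.2) (by omega)
    have e : (x.1 + ((tri z).1 - x.1), x.2.1 + ((tri z).2.1 - x.2.1), x.2.2 + ((tri z).2.2 - x.2.2)) = tri z := by
      obtain ⟨h2, h3, h4⟩ := hz2
      rw [Nat.add_sub_cancel' h2, Nat.add_sub_cancel' h3, Nat.add_sub_cancel' h4]
    rwa [e] at h1
  · exact cov_outside (h 0 (by omega) 0 (by omega) 0 (by omega)) hz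

theorem valid_sound {n : ℕ} : ∀ (t : Ms) (r : ℕ) (D : List (ℕ × ℕ × ℕ)) (x : Q 3 n) (C : Set (Q 3 n)),
    valid t r (tri x) D = true → n ≤ lv (tri x) + 1 + r → (∀ q ∈ C, x ≤ q → x ≠ q → tri q ∈ D) →
    ∀ r' ≤ r, lv (tri x) + 1 + r' ≤ n → ∀ z : Q 3 n, cov t (tri x) D (tri z) = true →
      ∃ u, Up x u ∧ u ∉ C ∧ u ≠ z ∧ SV r' u (C ∪ {q | q = z ∨ q = u}) := by
  intro t
  induction t with
  | fin => intro r D x C _ _ _ r' _ _ z hz; simp [cov] at hz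
  | entry i Z t s iht ihs =>
    intro r D x C hv hn hC r' hr hr2 z hz
    have hvs : valid s r (tri x) D = true := by
      cases r <;> simp [valid, Bool.and_eq_true] at hv <;> exact hv.2
    have hvD : bump i (tri x) ∉ D := by
      intro hmem
      have := memL_iff.2 hmem
      cases r <;> simp [valid, this] at hv
    have hz' : ((¬ bump i (tri x) = tri z) ∧ (tri z ∈ Z ∨ tri z ∈ D ∨ ¬ leq (bump i (tri x)) (tri z) = true)) ∨
        cov s (tri x) D (tri z) = true := by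
      have h0 : (!(eqL (bump i (tri x)) (tri z)) &&
          (memL (tri z) Z || (memL (tri z) D || !(leq (bump i (tri x)) (tri z))))) = true ∨
          cov s (tri x) D (tri z) = true := by
        have := hz
        unfold cov at this
        rwa [Bool.or_eq_true] at this
      rcases h0 with h0 | h0
      · left
        rw [Bool.and_eq_true, Bool.or_eq_true, Bool.or_eq_true, Bool.not_eq_true', Bool.not_eq_true', memL_iff, memL_iff] at h0
        obtain ⟨h1, h2⟩ := h0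
        refine ⟨fun h3 => ?_, ?_⟩
        · rw [← eqL_iff, h1] at h3
          exact Bool.false_ne_true h3
        · rcases h2 with h2 | h2 | h2
          · exact Or.inl h2
          · exact Or.inr (Or.inl h2)
          · exact Or.inr (Or.inr (by rw [h2]; exact Bool.false_ne_true))
      · exact Or.inr h0
    rcases hz' with ⟨hne, hcase⟩ | hz'
    · have hlu : lv (bump i (tri x)) ≤ n := by rw [lv_bump]; omega
      obtain ⟨u, hu⟩ : ∃ u : Q 3 n, tri u = bump i (tri x) := ⟨ofTri _ hlu, tri_ofTri _ _⟩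
      have hxu : x ≤ u := by rw [le_iff_leq, hu]; exact leq_bump _ _
      have hlev : lv (tri u) = lv (tri x) + 1 := by rw [hu, lv_bump]
      have hxu' : x ≠ u := by
        rintro rfl
        omega
      refine ⟨u, ⟨hxu, ?_⟩, ?_, ?_, ?_⟩
      · rw [← lv_tri, ← lv_tri, hlev]
      · intro huC
        exact hvD (hu ▸ hC u huC hxu hxu')
      · rintro rfl
        exact hne hu.symm
      · cases r' with
        | zero => trivial
        | succ r₁ =>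
          obtain ⟨r₀, rfl⟩ : ∃ r₀, r = r₀ + 1 := ⟨r - 1, by omega⟩
          have hv2 : covAll t (r₀ + 1) (bump i (tri x)) (Z ++ D) = true ∧ valid t r₀ (bump i (tri x)) (Z ++ D) = true := by
            have := hv
            simp only [valid, Bool.and_eq_true] at this
            exact this.1.2
          rw [← hu] at hv2
          intro z'
          refine iht r₀ (Z ++ D) u _ hv2.2 (by omega) ?_ r₁ (by omega) (by omega) z' (covAll_cov hv2.1 (by omega) z')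
          rintro q (hq | hq | hq) huq hneq
          · refine List.mem_append_right _ (hC q hq (hxu.trans huq) ?_)
            rintro rfl
            exact hxu' (le_antisymm hxu huq)
          · subst hq
            rcases hcase with h1 | h1 | h1
            · exact List.mem_append_left _ h1
            · exact List.mem_append_right _ h1
            · rw [← hu, ← le_iff_leq] at h1
              exact absurd huq h1
          · exact absurd hq.symm hneq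
    · exact ihs r D x C hvs hn hC r' hr hr2 z hz'

/-- Maker's strategy for six steps -/
def mtree : Ms :=
  (.entry 1 [(4,1,1), (1,1,4), (3,1,2), (2,1,3), (3,1,1), (1,1,3), (2,1,2), (2,1,1), (1,1,2), (1,1,1)] (.entry 1
    [(2,2,2), (1,3,1), (1,4,1), (1,2,1)] (.entry 0 [(1,3,2)] (.entry 0 [(2,3,0), (2,4,0)] (.entry 0 [(3,2,1)]
    (.entry 0 [] .fin (.entry 1 [] .fin .fin)) (.entry 2 [] (.entry 0 [] .fin (.entry 1 [] .fin .fin)) .fin))
    (.entry 0 [(2,3,1)] (.entry 0 [(3,3,0)] (.entry 0 [] .fin (.entry 2 [] .fin .fin)) (.entry 1 [] (.entry 0 []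
    .fin (.entry 1 [] .fin .fin)) .fin)) (.entry 0 [(3,3,0)] (.entry 0 [] (.entry 0 [] .fin (.entry 2 [] .fin
    .fin)) (.entry 1 [] (.entry 1 [] .fin (.entry 2 [] .fin .fin)) .fin)) (.entry 1 [] (.entry 0 [(2,4,0)] (.entry
    0 [] .fin (.entry 2 [] .fin .fin)) (.entry 1 [] (.entry 0 [] .fin (.entry 1 [] .fin .fin)) .fin)) .fin))))
    (.entry 2 [(2,3,1)] (.entry 2 [(0,3,2), (0,4,2)] (.entry 2 [(1,2,3)] (.entry 1 [] .fin (.entry 2 [] .fin
    .fin)) (.entry 0 [] (.entry 1 [] .fin (.entry 2 [] .fin .fin)) .fin)) (.entry 2 [(1,3,2)] (.entry 2 [(0,3,3)]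
    (.entry 0 [] .fin (.entry 2 [] .fin .fin)) (.entry 1 [] (.entry 1 [] .fin (.entry 2 [] .fin .fin)) .fin))
    (.entry 2 [(0,3,3)] (.entry 0 [] (.entry 1 [] .fin (.entry 2 [] .fin .fin)) (.entry 1 [] (.entry 0 [] .fin
    (.entry 1 [] .fin .fin)) (.entry 2 [] (.entry 0 [] .fin (.entry 2 [] .fin .fin)) .fin))) (.entry 1 [] (.entry
    2 [(0,4,2)] (.entry 0 [] .fin (.entry 2 [] .fin .fin)) (.entry 1 [] (.entry 1 [] .fin (.entry 2 [] .fin .fin))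
    .fin)) .fin)))) (.entry 1 [] (.entry 0 [] (.entry 0 [(2,4,0)] (.entry 0 [] .fin (.entry 2 [] .fin .fin))
    (.entry 1 [] (.entry 0 [] .fin (.entry 1 [] .fin .fin)) .fin)) (.entry 1 [] (.entry 0 [] (.entry 0 [] .fin
    (.entry 1 [] .fin .fin)) (.entry 1 [] (.entry 0 [] .fin (.entry 1 [] .fin .fin)) (.entry 2 [] (.entry 1 []
    .fin (.entry 2 [] .fin .fin)) .fin))) (.entry 2 [] (.entry 2 [(0,4,2)] (.entry 0 [] .fin (.entry 2 [] .fin
    .fin)) (.entry 1 [] (.entry 1 [] .fin (.entry 2 [] .fin .fin)) .fin)) .fin))) .fin))) (.entry 1 [(1,3,2),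
    (1,2,3), (1,2,2)] (.entry 1 [(1,3,0), (1,3,1), (2,3,0), (2,3,1), (2,4,0), (3,3,0)] (.entry 1 [(0,4,1),
    (0,4,2)] (.entry 1 [(1,5,0)] (.entry 1 [] .fin (.entry 2 [] .fin .fin)) (.entry 0 [] (.entry 1 [] .fin (.entry
    2 [] .fin .fin)) .fin)) (.entry 1 [(1,4,1)] (.entry 1 [(0,5,1)] (.entry 0 [] .fin (.entry 1 [] .fin .fin))
    (.entry 2 [] (.entry 1 [] .fin (.entry 2 [] .fin .fin)) .fin)) (.entry 1 [(0,5,1)] (.entry 0 [] (.entry 1 []
    .fin (.entry 2 [] .fin .fin)) (.entry 1 [] (.entry 0 [] .fin (.entry 1 [] .fin .fin)) (.entry 2 [] (.entry 0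
    [] .fin (.entry 2 [] .fin .fin)) .fin))) (.entry 2 [] (.entry 1 [(0,4,2)] (.entry 0 [] .fin (.entry 1 [] .fin
    .fin)) (.entry 2 [] (.entry 1 [] .fin (.entry 2 [] .fin .fin)) .fin)) .fin)))) (.entry 0 [(1,4,0), (1,5,0)]
    (.entry 0 [(2,3,1)] (.entry 0 [] (.entry 0 [] .fin (.entry 1 [] .fin .fin)) (.entry 1 [] (.entry 0 [] .fin
    (.entry 1 [] .fin .fin)) (.entry 2 [] (.entry 0 [] .fin (.entry 2 [] .fin .fin)) .fin))) (.entry 1 [] (.entry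
    0 [(2,3,1)] (.entry 0 [] .fin (.entry 1 [] .fin .fin)) (.entry 2 [] (.entry 0 [] .fin (.entry 1 [] .fin .fin))
    .fin)) (.entry 2 [] (.entry 0 [(2,3,1)] (.entry 0 [] .fin (.entry 2 [] .fin .fin)) (.entry 1 [] (.entry 0 []
    .fin (.entry 1 [] .fin .fin)) .fin)) .fin))) (.entry 0 [(1,4,1)] (.entry 0 [(2,3,0), (2,3,1), (2,4,0)] (.entry
    0 [(3,2,1)] (.entry 0 [] .fin (.entry 1 [] .fin .fin)) (.entry 2 [] (.entry 0 [] .fin (.entry 2 [] .fin .fin))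
    .fin)) (.entry 0 [(3,3,0)] (.entry 0 [] (.entry 0 [] .fin (.entry 2 [] .fin .fin)) (.entry 1 [] (.entry 1 []
    .fin (.entry 2 [] .fin .fin)) .fin)) (.entry 1 [] (.entry 0 [(2,4,0)] (.entry 0 [] .fin (.entry 2 [] .fin
    .fin)) (.entry 1 [] (.entry 0 [] .fin (.entry 1 [] .fin .fin)) .fin)) .fin))) .fin))) (.entry 1 [(2,2,1),
    (2,3,1), (3,2,1)] (.entry 1 [(0,3,1), (1,3,1), (0,3,2), (1,3,2), (0,4,2), (0,3,3)] (.entry 1 [(1,4,0),
    (2,4,0)] (.entry 1 [(0,5,1)] (.entry 0 [] .fin (.entry 1 [] .fin .fin)) (.entry 2 [] (.entry 0 [] .fin (.entry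
    1 [] .fin .fin)) .fin)) (.entry 1 [(1,4,1)] (.entry 1 [(1,5,0)] (.entry 1 [] .fin (.entry 2 [] .fin .fin))
    (.entry 0 [] (.entry 0 [] .fin (.entry 1 [] .fin .fin)) .fin)) (.entry 1 [(1,5,0)] (.entry 0 [] (.entry 0 []
    .fin (.entry 2 [] .fin .fin)) (.entry 1 [] (.entry 1 [] .fin (.entry 2 [] .fin .fin)) .fin)) (.entry 0 []
    (.entry 1 [(2,4,0)] (.entry 1 [] .fin (.entry 2 [] .fin .fin)) (.entry 0 [] (.entry 0 [] .fin (.entry 1 []
    .fin .fin)) .fin)) .fin)))) (.entry 2 [(0,4,1), (0,5,1)] (.entry 2 [(1,3,2)] (.entry 0 [] (.entry 0 [] .fin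
    (.entry 2 [] .fin .fin)) (.entry 1 [] (.entry 1 [] .fin (.entry 2 [] .fin .fin)) .fin)) (.entry 0 [] (.entry 2
    [(1,3,2)] (.entry 0 [] .fin (.entry 2 [] .fin .fin)) (.entry 1 [] (.entry 1 [] .fin (.entry 2 [] .fin .fin))
    .fin)) (.entry 1 [] (.entry 2 [(1,3,2)] (.entry 1 [] .fin (.entry 2 [] .fin .fin)) (.entry 0 [] (.entry 1 []
    .fin (.entry 2 [] .fin .fin)) .fin)) .fin))) (.entry 2 [(1,4,1)] (.entry 2 [(0,4,2), (0,3,3), (0,3,2)] (.entry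
    0 [(1,2,3)] (.entry 0 [] .fin (.entry 1 [] .fin .fin)) (.entry 2 [] (.entry 0 [] .fin (.entry 2 [] .fin .fin))
    .fin)) (.entry 2 [(1,3,2)] (.entry 0 [] (.entry 0 [] .fin (.entry 2 [] .fin .fin)) (.entry 1 [] (.entry 1 []
    .fin (.entry 2 [] .fin .fin)) .fin)) (.entry 1 [] (.entry 2 [(0,4,2)] (.entry 0 [] .fin (.entry 2 [] .fin
    .fin)) (.entry 1 [] (.entry 1 [] .fin (.entry 2 [] .fin .fin)) .fin)) .fin))) .fin))) (.entry 0 [] (.entry 1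
    [(2,2,0), (2,2,1), (3,2,0), (2,2,2), (3,2,1), (3,3,0), (4,2,0)] (.entry 1 [(1,3,1), (1,3,2)] (.entry 1
    [(2,4,0)] (.entry 1 [] .fin (.entry 2 [] .fin .fin)) (.entry 0 [] (.entry 1 [] .fin (.entry 2 [] .fin .fin))
    .fin)) (.entry 1 [(2,3,1)] (.entry 1 [(1,4,1)] (.entry 0 [] .fin (.entry 1 [] .fin .fin)) (.entry 2 [] (.entry
    1 [] .fin (.entry 2 [] .fin .fin)) .fin)) (.entry 1 [(1,4,1)] (.entry 0 [] (.entry 1 [] .fin (.entry 2 [] .fin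
    .fin)) (.entry 1 [] (.entry 0 [] .fin (.entry 1 [] .fin .fin)) (.entry 2 [] (.entry 0 [] .fin (.entry 2 []
    .fin .fin)) .fin))) (.entry 2 [] (.entry 1 [(1,3,2)] (.entry 0 [] .fin (.entry 1 [] .fin .fin)) (.entry 2 []
    (.entry 1 [] .fin (.entry 2 [] .fin .fin)) .fin)) .fin)))) (.entry 1 [(2,3,0), (2,3,1)] (.entry 0 [] (.entry 0
    [(3,2,1)] (.entry 0 [] .fin (.entry 1 [] .fin .fin)) (.entry 2 [] (.entry 0 [] .fin (.entry 2 [] .fin .fin))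
    .fin)) (.entry 1 [] (.entry 1 [(1,4,1)] (.entry 0 [] .fin (.entry 1 [] .fin .fin)) (.entry 2 [] (.entry 1 []
    .fin (.entry 2 [] .fin .fin)) .fin)) (.entry 2 [] (.entry 0 [] (.entry 0 [] .fin (.entry 2 [] .fin .fin))
    (.entry 1 [] (.entry 1 [] .fin (.entry 2 [] .fin .fin)) .fin)) .fin))) (.entry 0 [(2,4,0)] (.entry 1 [(3,2,0),
    (4,2,0)] (.entry 2 [(2,3,1)] (.entry 0 [] .fin (.entry 2 [] .fin .fin)) (.entry 1 [] (.entry 0 [] .fin (.entry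
    2 [] .fin .fin)) .fin)) (.entry 1 [(3,2,1)] (.entry 0 [] (.entry 0 [] .fin (.entry 1 [] .fin .fin)) (.entry 1
    [] (.entry 0 [] .fin (.entry 2 [] .fin .fin)) (.entry 2 [] (.entry 1 [] .fin (.entry 2 [] .fin .fin)) .fin)))
    (.entry 1 [(3,3,0)] (.entry 2 [(3,2,1)] (.entry 1 [] .fin (.entry 2 [] .fin .fin)) (.entry 0 [] (.entry 0 []
    .fin (.entry 2 [] .fin .fin)) .fin)) (.entry 0 [] (.entry 1 [(4,2,0)] (.entry 1 [] .fin (.entry 2 [] .fin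
    .fin)) (.entry 0 [] (.entry 0 [] .fin (.entry 1 [] .fin .fin)) .fin)) .fin)))) .fin))) (.entry 2 [] (.entry 1
    [(0,2,3), (0,2,4), (1,3,2), (0,2,2)] (.entry 0 [(1,3,1), (1,4,1)] (.entry 0 [(2,2,2)] (.entry 0 [] .fin
    (.entry 1 [] .fin .fin)) (.entry 2 [] (.entry 0 [] .fin (.entry 2 [] .fin .fin)) .fin)) (.entry 1 [(2,3,1)]
    (.entry 1 [(0,4,2)] (.entry 0 [] .fin (.entry 1 [] .fin .fin)) (.entry 2 [] (.entry 1 [] .fin (.entry 2 []
    .fin .fin)) .fin)) .fin)) (.entry 1 [(0,3,3), (0,4,2), (1,2,3), (0,3,2)] (.entry 0 [(1,3,1), (1,4,1)] (.entry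
    0 [(2,2,2)] (.entry 0 [] .fin (.entry 1 [] .fin .fin)) (.entry 2 [] (.entry 0 [] .fin (.entry 1 [] .fin .fin))
    .fin)) (.entry 0 [(1,3,2)] (.entry 0 [(2,3,1)] (.entry 0 [] .fin (.entry 2 [] .fin .fin)) (.entry 1 [] (.entry
    0 [] .fin (.entry 1 [] .fin .fin)) .fin)) (.entry 0 [(2,3,1)] (.entry 0 [] (.entry 0 [] .fin (.entry 2 [] .fin
    .fin)) (.entry 1 [] (.entry 1 [] .fin (.entry 2 [] .fin .fin)) .fin)) (.entry 1 [] (.entry 0 [(1,4,1)] (.entry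
    0 [] .fin (.entry 2 [] .fin .fin)) (.entry 1 [] (.entry 0 [] .fin (.entry 1 [] .fin .fin)) .fin)) .fin))))
    (.entry 1 [(2,2,2), (1,2,2)] (.entry 1 [(1,3,2)] (.entry 0 [] (.entry 0 [] .fin (.entry 1 [] .fin .fin))
    (.entry 1 [] (.entry 0 [] .fin (.entry 1 [] .fin .fin)) (.entry 2 [] (.entry 1 [] .fin (.entry 2 [] .fin
    .fin)) .fin))) (.entry 0 [] (.entry 1 [(2,3,1)] (.entry 1 [] .fin (.entry 2 [] .fin .fin)) (.entry 0 []
    (.entry 0 [] .fin (.entry 1 [] .fin .fin)) .fin)) (.entry 2 [] (.entry 1 [(0,3,3)] (.entry 0 [] .fin (.entry 1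
    [] .fin .fin)) (.entry 2 [] (.entry 0 [] .fin (.entry 1 [] .fin .fin)) .fin)) .fin))) (.entry 2 [] (.entry 1
    [(0,2,3), (1,2,3), (0,2,4)] (.entry 1 [(1,3,2)] (.entry 1 [] .fin (.entry 2 [] .fin .fin)) (.entry 0 []
    (.entry 0 [] .fin (.entry 1 [] .fin .fin)) .fin)) (.entry 1 [(0,3,3)] (.entry 0 [] (.entry 0 [] .fin (.entry 1
    [] .fin .fin)) (.entry 1 [] (.entry 0 [] .fin (.entry 1 [] .fin .fin)) (.entry 2 [] (.entry 0 [] .fin (.entry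
    2 [] .fin .fin)) .fin))) (.entry 2 [] (.entry 1 [(0,2,4)] (.entry 0 [] .fin (.entry 1 [] .fin .fin)) (.entry 2
    [] (.entry 1 [] .fin (.entry 2 [] .fin .fin)) .fin)) .fin))) .fin)))) .fin))))) (.entry 0 [(1,4,1), (1,3,2),
    (1,2,3), (1,3,1), (1,2,2), (1,2,1)] (.entry 0 [(2,1,1), (2,1,2), (2,2,1), (2,2,2), (2,1,3), (2,3,1)] (.entry 0
    [(4,1,1), (3,1,1)] (.entry 0 [] (.entry 0 [] (.entry 0 [] .fin (.entry 1 [] .fin .fin)) (.entry 1 [] (.entry 0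
    [] .fin (.entry 1 [] .fin .fin)) (.entry 2 [] (.entry 0 [] .fin (.entry 2 [] .fin .fin)) .fin))) (.entry 1 []
    (.entry 1 [(4,2,0)] (.entry 1 [] .fin (.entry 2 [] .fin .fin)) (.entry 0 [] (.entry 0 [] .fin (.entry 1 []
    .fin .fin)) .fin)) (.entry 2 [] (.entry 2 [(4,0,2)] (.entry 1 [] .fin (.entry 2 [] .fin .fin)) (.entry 0 []
    (.entry 0 [] .fin (.entry 2 [] .fin .fin)) .fin)) .fin))) (.entry 0 [(3,2,1), (3,1,2)] (.entry 0 [(4,1,1)]
    (.entry 0 [] (.entry 0 [] .fin (.entry 1 [] .fin .fin)) (.entry 1 [] (.entry 0 [] .fin (.entry 1 [] .fin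
    .fin)) (.entry 2 [] (.entry 0 [] .fin (.entry 2 [] .fin .fin)) .fin))) (.entry 1 [] (.entry 0 [(4,2,0)]
    (.entry 0 [] .fin (.entry 2 [] .fin .fin)) (.entry 1 [] (.entry 0 [] .fin (.entry 1 [] .fin .fin)) .fin))
    (.entry 2 [] (.entry 0 [(4,0,2)] (.entry 0 [] .fin (.entry 1 [] .fin .fin)) (.entry 2 [] (.entry 0 [] .fin
    (.entry 2 [] .fin .fin)) .fin)) .fin))) (.entry 1 [] (.entry 0 [(3,2,0), (3,2,1), (3,3,0)] (.entry 0 [(4,1,1)]
    (.entry 0 [] .fin (.entry 1 [] .fin .fin)) (.entry 2 [] (.entry 0 [] .fin (.entry 2 [] .fin .fin)) .fin))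
    (.entry 0 [(4,2,0)] (.entry 0 [] (.entry 0 [] .fin (.entry 2 [] .fin .fin)) (.entry 1 [] (.entry 1 [] .fin
    (.entry 2 [] .fin .fin)) .fin)) (.entry 1 [] (.entry 0 [(3,3,0)] (.entry 0 [] .fin (.entry 2 [] .fin .fin))
    (.entry 1 [] (.entry 0 [] .fin (.entry 1 [] .fin .fin)) .fin)) .fin))) (.entry 2 [] (.entry 0 [(3,0,2),
    (3,1,2), (3,0,3)] (.entry 0 [(4,1,1)] (.entry 0 [] .fin (.entry 2 [] .fin .fin)) (.entry 1 [] (.entry 0 []
    .fin (.entry 1 [] .fin .fin)) .fin)) (.entry 0 [(4,0,2)] (.entry 0 [] (.entry 0 [] .fin (.entry 1 [] .fin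
    .fin)) (.entry 1 [] (.entry 0 [] .fin (.entry 1 [] .fin .fin)) (.entry 2 [] (.entry 1 [] .fin (.entry 2 []
    .fin .fin)) .fin))) (.entry 2 [] (.entry 0 [(3,0,3)] (.entry 0 [] .fin (.entry 1 [] .fin .fin)) (.entry 2 []
    (.entry 0 [] .fin (.entry 2 [] .fin .fin)) .fin)) .fin))) .fin)))) (.entry 0 [(3,1,1), (3,1,2)] (.entry 0
    [(3,2,1)] (.entry 0 [(4,1,1)] (.entry 0 [] (.entry 0 [] .fin (.entry 1 [] .fin .fin)) (.entry 1 [] (.entry 0
    [] .fin (.entry 1 [] .fin .fin)) (.entry 2 [] (.entry 0 [] .fin (.entry 2 [] .fin .fin)) .fin))) (.entry 1 []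
    (.entry 0 [(4,2,0)] (.entry 0 [] .fin (.entry 2 [] .fin .fin)) (.entry 1 [] (.entry 0 [] .fin (.entry 1 []
    .fin .fin)) .fin)) (.entry 2 [] (.entry 0 [(4,0,2)] (.entry 0 [] .fin (.entry 1 [] .fin .fin)) (.entry 2 []
    (.entry 0 [] .fin (.entry 2 [] .fin .fin)) .fin)) .fin))) (.entry 1 [(4,1,1)] (.entry 1 [(3,2,1)] (.entry 0 []
    (.entry 0 [] .fin (.entry 1 [] .fin .fin)) (.entry 1 [] (.entry 0 [] .fin (.entry 1 [] .fin .fin)) (.entry 2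
    [] (.entry 1 [] .fin (.entry 2 [] .fin .fin)) .fin))) (.entry 0 [] (.entry 1 [(4,2,0)] (.entry 1 [] .fin
    (.entry 2 [] .fin .fin)) (.entry 0 [] (.entry 0 [] .fin (.entry 1 [] .fin .fin)) .fin)) (.entry 2 [] (.entry 1
    [(2,2,2)] (.entry 0 [] .fin (.entry 1 [] .fin .fin)) (.entry 2 [] (.entry 1 [] .fin (.entry 2 [] .fin .fin))
    .fin)) .fin))) (.entry 2 [] (.entry 0 [] (.entry 0 [(4,0,2)] (.entry 0 [] .fin (.entry 1 [] .fin .fin))
    (.entry 2 [] (.entry 0 [] .fin (.entry 2 [] .fin .fin)) .fin)) (.entry 1 [] (.entry 1 [(2,2,2)] (.entry 0 []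
    .fin (.entry 1 [] .fin .fin)) (.entry 2 [] (.entry 1 [] .fin (.entry 2 [] .fin .fin)) .fin)) (.entry 2 []
    (.entry 0 [] (.entry 0 [] .fin (.entry 2 [] .fin .fin)) (.entry 1 [] (.entry 1 [] .fin (.entry 2 [] .fin
    .fin)) .fin)) .fin))) .fin))) (.entry 0 [(3,2,1)] (.entry 0 [(3,1,1), (3,1,2)] (.entry 0 [(4,1,1)] (.entry 0
    [] (.entry 0 [] .fin (.entry 1 [] .fin .fin)) (.entry 1 [] (.entry 0 [] .fin (.entry 1 [] .fin .fin)) (.entry
    2 [] (.entry 0 [] .fin (.entry 2 [] .fin .fin)) .fin))) (.entry 1 [] (.entry 0 [(4,2,0)] (.entry 0 [] .fin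
    (.entry 2 [] .fin .fin)) (.entry 1 [] (.entry 0 [] .fin (.entry 1 [] .fin .fin)) .fin)) (.entry 2 [] (.entry 0
    [(4,0,2)] (.entry 0 [] .fin (.entry 1 [] .fin .fin)) (.entry 2 [] (.entry 0 [] .fin (.entry 2 [] .fin .fin))
    .fin)) .fin))) (.entry 2 [(4,1,1)] (.entry 2 [(3,1,2)] (.entry 0 [] (.entry 0 [] .fin (.entry 2 [] .fin .fin))
    (.entry 1 [] (.entry 1 [] .fin (.entry 2 [] .fin .fin)) .fin)) (.entry 0 [] (.entry 2 [(4,0,2)] (.entry 1 []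
    .fin (.entry 2 [] .fin .fin)) (.entry 0 [] (.entry 0 [] .fin (.entry 2 [] .fin .fin)) .fin)) (.entry 1 []
    (.entry 2 [(2,2,2)] (.entry 0 [] .fin (.entry 2 [] .fin .fin)) (.entry 1 [] (.entry 1 [] .fin (.entry 2 []
    .fin .fin)) .fin)) .fin))) (.entry 1 [] (.entry 0 [] (.entry 0 [] (.entry 0 [] .fin (.entry 1 [] .fin .fin))
    (.entry 1 [] (.entry 0 [] .fin (.entry 1 [] .fin .fin)) (.entry 2 [] (.entry 0 [] .fin (.entry 2 [] .fin
    .fin)) .fin))) (.entry 1 [] (.entry 0 [] (.entry 0 [] .fin (.entry 1 [] .fin .fin)) (.entry 1 [] (.entry 0 []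
    .fin (.entry 1 [] .fin .fin)) (.entry 2 [] (.entry 1 [] .fin (.entry 2 [] .fin .fin)) .fin))) (.entry 2 []
    (.entry 0 [] (.entry 0 [] .fin (.entry 2 [] .fin .fin)) (.entry 1 [] (.entry 1 [] .fin (.entry 2 [] .fin
    .fin)) .fin)) .fin))) .fin))) (.entry 0 [(4,1,1)] (.entry 1 [(3,1,1), (3,1,2)] (.entry 1 [(3,2,1)] (.entry 0
    [] (.entry 0 [] .fin (.entry 1 [] .fin .fin)) (.entry 1 [] (.entry 0 [] .fin (.entry 1 [] .fin .fin)) (.entry
    2 [] (.entry 1 [] .fin (.entry 2 [] .fin .fin)) .fin))) (.entry 0 [] (.entry 1 [(4,2,0)] (.entry 1 [] .fin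
    (.entry 2 [] .fin .fin)) (.entry 0 [] (.entry 0 [] .fin (.entry 1 [] .fin .fin)) .fin)) (.entry 2 [] (.entry 1
    [(2,2,2)] (.entry 0 [] .fin (.entry 1 [] .fin .fin)) (.entry 2 [] (.entry 1 [] .fin (.entry 2 [] .fin .fin))
    .fin)) .fin))) (.entry 2 [(3,2,1)] (.entry 2 [(3,1,2)] (.entry 0 [] (.entry 0 [] .fin (.entry 2 [] .fin .fin))
    (.entry 1 [] (.entry 1 [] .fin (.entry 2 [] .fin .fin)) .fin)) (.entry 0 [] (.entry 2 [(4,0,2)] (.entry 1 []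
    .fin (.entry 2 [] .fin .fin)) (.entry 0 [] (.entry 0 [] .fin (.entry 2 [] .fin .fin)) .fin)) (.entry 1 []
    (.entry 2 [(2,2,2)] (.entry 0 [] .fin (.entry 2 [] .fin .fin)) (.entry 1 [] (.entry 1 [] .fin (.entry 2 []
    .fin .fin)) .fin)) .fin))) (.entry 0 [] (.entry 0 [] (.entry 0 [] (.entry 0 [] .fin (.entry 1 [] .fin .fin))
    (.entry 1 [] (.entry 0 [] .fin (.entry 1 [] .fin .fin)) (.entry 2 [] (.entry 0 [] .fin (.entry 2 [] .fin
    .fin)) .fin))) (.entry 1 [] (.entry 0 [] (.entry 0 [] .fin (.entry 1 [] .fin .fin)) (.entry 1 [] (.entry 0 []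
    .fin (.entry 1 [] .fin .fin)) (.entry 2 [] (.entry 1 [] .fin (.entry 2 [] .fin .fin)) .fin))) (.entry 2 []
    (.entry 0 [] (.entry 0 [] .fin (.entry 2 [] .fin .fin)) (.entry 1 [] (.entry 1 [] .fin (.entry 2 [] .fin
    .fin)) .fin)) .fin))) .fin))) (.entry 1 [] (.entry 0 [(3,2,1), (2,2,1)] (.entry 0 [] (.entry 0 [] (.entry 0 []
    .fin (.entry 1 [] .fin .fin)) (.entry 1 [] (.entry 0 [] .fin (.entry 1 [] .fin .fin)) (.entry 2 [] (.entry 0
    [] .fin (.entry 2 [] .fin .fin)) .fin))) (.entry 1 [] (.entry 1 [(3,3,0)] (.entry 1 [] .fin (.entry 2 [] .fin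
    .fin)) (.entry 0 [] (.entry 0 [] .fin (.entry 1 [] .fin .fin)) .fin)) (.entry 2 [] (.entry 2 [(3,1,2)] (.entry
    1 [] .fin (.entry 2 [] .fin .fin)) (.entry 0 [] (.entry 0 [] .fin (.entry 2 [] .fin .fin)) .fin)) .fin)))
    (.entry 0 [(2,3,1), (2,2,2)] (.entry 0 [(3,2,1)] (.entry 0 [] (.entry 0 [] .fin (.entry 1 [] .fin .fin))
    (.entry 1 [] (.entry 0 [] .fin (.entry 1 [] .fin .fin)) (.entry 2 [] (.entry 0 [] .fin (.entry 2 [] .fin
    .fin)) .fin))) (.entry 1 [] (.entry 0 [(3,3,0)] (.entry 0 [] .fin (.entry 2 [] .fin .fin)) (.entry 1 []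
    (.entry 0 [] .fin (.entry 1 [] .fin .fin)) .fin)) (.entry 2 [] (.entry 0 [(3,1,2)] (.entry 0 [] .fin (.entry 1
    [] .fin .fin)) (.entry 2 [] (.entry 0 [] .fin (.entry 2 [] .fin .fin)) .fin)) .fin))) (.entry 1 [] (.entry 0
    [(2,3,0), (2,3,1), (2,4,0)] (.entry 0 [(3,2,1)] (.entry 0 [] .fin (.entry 1 [] .fin .fin)) (.entry 2 []
    (.entry 0 [] .fin (.entry 2 [] .fin .fin)) .fin)) (.entry 0 [(3,3,0)] (.entry 0 [] (.entry 0 [] .fin (.entry 2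
    [] .fin .fin)) (.entry 1 [] (.entry 1 [] .fin (.entry 2 [] .fin .fin)) .fin)) (.entry 1 [] (.entry 0 [(2,4,0)]
    (.entry 0 [] .fin (.entry 2 [] .fin .fin)) (.entry 1 [] (.entry 0 [] .fin (.entry 1 [] .fin .fin)) .fin))
    .fin))) (.entry 2 [] (.entry 0 [(2,1,2), (2,2,2), (2,1,3)] (.entry 0 [(3,2,1)] (.entry 0 [] .fin (.entry 2 []
    .fin .fin)) (.entry 1 [] (.entry 0 [] .fin (.entry 1 [] .fin .fin)) .fin)) (.entry 0 [(3,1,2)] (.entry 0 []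
    (.entry 0 [] .fin (.entry 1 [] .fin .fin)) (.entry 1 [] (.entry 0 [] .fin (.entry 1 [] .fin .fin)) (.entry 2
    [] (.entry 1 [] .fin (.entry 2 [] .fin .fin)) .fin))) (.entry 2 [] (.entry 0 [(2,1,3)] (.entry 0 [] .fin
    (.entry 1 [] .fin .fin)) (.entry 2 [] (.entry 0 [] .fin (.entry 2 [] .fin .fin)) .fin)) .fin))) .fin))))
    (.entry 2 [] (.entry 2 [(3,1,2), (2,2,2), (2,1,2)] (.entry 2 [(2,0,3), (3,0,3)] (.entry 2 [(1,1,4)] (.entry 0
    [] .fin (.entry 2 [] .fin .fin)) (.entry 1 [] (.entry 0 [] .fin (.entry 2 [] .fin .fin)) .fin)) (.entry 2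
    [(2,1,3)] (.entry 2 [(2,0,4)] (.entry 1 [] .fin (.entry 2 [] .fin .fin)) (.entry 0 [] (.entry 0 [] .fin
    (.entry 2 [] .fin .fin)) .fin)) (.entry 2 [(2,0,4)] (.entry 0 [] (.entry 0 [] .fin (.entry 1 [] .fin .fin))
    (.entry 1 [] (.entry 0 [] .fin (.entry 2 [] .fin .fin)) (.entry 2 [] (.entry 1 [] .fin (.entry 2 [] .fin
    .fin)) .fin))) (.entry 0 [] (.entry 2 [(3,0,3)] (.entry 1 [] .fin (.entry 2 [] .fin .fin)) (.entry 0 []
    (.entry 0 [] .fin (.entry 2 [] .fin .fin)) .fin)) .fin)))) (.entry 0 [(2,1,3)] (.entry 0 [(3,1,2)] (.entry 0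
    [] (.entry 0 [] .fin (.entry 1 [] .fin .fin)) (.entry 1 [] (.entry 0 [] .fin (.entry 1 [] .fin .fin)) (.entry
    2 [] (.entry 0 [] .fin (.entry 2 [] .fin .fin)) .fin))) (.entry 1 [] (.entry 0 [] (.entry 0 [] .fin (.entry 1
    [] .fin .fin)) (.entry 1 [] (.entry 0 [] .fin (.entry 1 [] .fin .fin)) (.entry 2 [] (.entry 0 [] .fin (.entry
    1 [] .fin .fin)) .fin))) (.entry 2 [] (.entry 0 [] (.entry 0 [] .fin (.entry 1 [] .fin .fin)) (.entry 1 []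
    (.entry 0 [] .fin (.entry 1 [] .fin .fin)) (.entry 2 [] (.entry 0 [] .fin (.entry 2 [] .fin .fin)) .fin)))
    .fin))) (.entry 1 [] (.entry 0 [(2,1,2), (2,2,2), (2,1,3)] (.entry 0 [(3,2,1)] (.entry 0 [] .fin (.entry 2 []
    .fin .fin)) (.entry 1 [] (.entry 0 [] .fin (.entry 1 [] .fin .fin)) .fin)) (.entry 0 [(3,1,2)] (.entry 0 []
    (.entry 0 [] .fin (.entry 1 [] .fin .fin)) (.entry 1 [] (.entry 0 [] .fin (.entry 1 [] .fin .fin)) (.entry 2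
    [] (.entry 1 [] .fin (.entry 2 [] .fin .fin)) .fin))) (.entry 2 [] (.entry 0 [(2,1,3)] (.entry 0 [] .fin
    (.entry 1 [] .fin .fin)) (.entry 2 [] (.entry 0 [] .fin (.entry 2 [] .fin .fin)) .fin)) .fin))) .fin)))
    .fin)))))) (.entry 2 [(3,2,1), (2,3,1), (2,2,2), (2,2,1)] (.entry 2 [(1,1,4), (1,1,3), (1,1,2)] (.entry 0
    [(1,2,3)] (.entry 0 [(2,0,3), (2,0,4)] (.entry 0 [(3,1,2)] (.entry 0 [] .fin (.entry 2 [] .fin .fin)) (.entry
    1 [] (.entry 0 [] .fin (.entry 2 [] .fin .fin)) .fin)) (.entry 0 [(2,1,3)] (.entry 0 [(3,0,3)] (.entry 0 []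
    .fin (.entry 1 [] .fin .fin)) (.entry 2 [] (.entry 0 [] .fin (.entry 2 [] .fin .fin)) .fin)) (.entry 0
    [(3,0,3)] (.entry 0 [] (.entry 0 [] .fin (.entry 1 [] .fin .fin)) (.entry 1 [] (.entry 0 [] .fin (.entry 2 []
    .fin .fin)) (.entry 2 [] (.entry 1 [] .fin (.entry 2 [] .fin .fin)) .fin))) (.entry 2 [] (.entry 0 [(2,0,4)]
    (.entry 0 [] .fin (.entry 1 [] .fin .fin)) (.entry 2 [] (.entry 0 [] .fin (.entry 2 [] .fin .fin)) .fin))
    .fin)))) (.entry 1 [(2,1,3)] (.entry 1 [(0,2,3), (0,2,4)] (.entry 1 [(1,3,2)] (.entry 1 [] .fin (.entry 2 []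
    .fin .fin)) (.entry 0 [] (.entry 1 [] .fin (.entry 2 [] .fin .fin)) .fin)) (.entry 1 [(1,2,3)] (.entry 1
    [(0,3,3)] (.entry 0 [] .fin (.entry 1 [] .fin .fin)) (.entry 2 [] (.entry 1 [] .fin (.entry 2 [] .fin .fin))
    .fin)) (.entry 1 [(0,3,3)] (.entry 0 [] (.entry 1 [] .fin (.entry 2 [] .fin .fin)) (.entry 1 [] (.entry 0 []
    .fin (.entry 1 [] .fin .fin)) (.entry 2 [] (.entry 0 [] .fin (.entry 2 [] .fin .fin)) .fin))) (.entry 2 []
    (.entry 1 [(0,2,4)] (.entry 0 [] .fin (.entry 1 [] .fin .fin)) (.entry 2 [] (.entry 1 [] .fin (.entry 2 []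
    .fin .fin)) .fin)) .fin)))) (.entry 2 [] (.entry 0 [] (.entry 0 [(2,0,4)] (.entry 0 [] .fin (.entry 1 [] .fin
    .fin)) (.entry 2 [] (.entry 0 [] .fin (.entry 2 [] .fin .fin)) .fin)) (.entry 1 [] (.entry 1 [(0,2,4)] (.entry
    0 [] .fin (.entry 1 [] .fin .fin)) (.entry 2 [] (.entry 1 [] .fin (.entry 2 [] .fin .fin)) .fin)) (.entry 2 []
    (.entry 0 [] (.entry 0 [] .fin (.entry 2 [] .fin .fin)) (.entry 1 [] (.entry 1 [] .fin (.entry 2 [] .fin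
    .fin)) .fin)) .fin))) .fin))) (.entry 2 [(1,2,3), (1,3,2), (1,2,2)] (.entry 2 [(1,0,3), (1,1,3), (2,0,3),
    (2,1,3), (2,0,4), (3,0,3)] (.entry 2 [(0,1,4), (0,2,4)] (.entry 2 [(1,0,5)] (.entry 1 [] .fin (.entry 2 []
    .fin .fin)) (.entry 0 [] (.entry 1 [] .fin (.entry 2 [] .fin .fin)) .fin)) (.entry 2 [(1,1,4)] (.entry 2
    [(0,1,5)] (.entry 0 [] .fin (.entry 2 [] .fin .fin)) (.entry 1 [] (.entry 1 [] .fin (.entry 2 [] .fin .fin))
    .fin)) (.entry 2 [(0,1,5)] (.entry 0 [] (.entry 1 [] .fin (.entry 2 [] .fin .fin)) (.entry 1 [] (.entry 0 []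
    .fin (.entry 1 [] .fin .fin)) (.entry 2 [] (.entry 0 [] .fin (.entry 2 [] .fin .fin)) .fin))) (.entry 1 []
    (.entry 2 [(0,2,4)] (.entry 0 [] .fin (.entry 2 [] .fin .fin)) (.entry 1 [] (.entry 1 [] .fin (.entry 2 []
    .fin .fin)) .fin)) .fin)))) (.entry 0 [(1,0,4), (1,0,5)] (.entry 0 [(2,0,3), (2,0,4)] (.entry 0 [(3,1,2)]
    (.entry 0 [] .fin (.entry 2 [] .fin .fin)) (.entry 1 [] (.entry 0 [] .fin (.entry 2 [] .fin .fin)) .fin))
    (.entry 0 [(2,1,3)] (.entry 0 [(3,0,3)] (.entry 0 [] .fin (.entry 1 [] .fin .fin)) (.entry 2 [] (.entry 0 []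
    .fin (.entry 2 [] .fin .fin)) .fin)) (.entry 0 [(3,0,3)] (.entry 0 [] (.entry 0 [] .fin (.entry 1 [] .fin
    .fin)) (.entry 1 [] (.entry 0 [] .fin (.entry 2 [] .fin .fin)) (.entry 2 [] (.entry 1 [] .fin (.entry 2 []
    .fin .fin)) .fin))) (.entry 2 [] (.entry 0 [(2,1,3)] (.entry 0 [] .fin (.entry 2 [] .fin .fin)) (.entry 1 []
    (.entry 0 [] .fin (.entry 2 [] .fin .fin)) .fin)) .fin)))) (.entry 0 [(1,1,4)] (.entry 0 [(2,0,3), (2,0,4)]
    (.entry 0 [(3,1,2)] (.entry 0 [] .fin (.entry 2 [] .fin .fin)) (.entry 1 [] (.entry 0 [] .fin (.entry 2 []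
    .fin .fin)) .fin)) (.entry 0 [(2,1,3)] (.entry 0 [(3,0,3)] (.entry 0 [] .fin (.entry 1 [] .fin .fin)) (.entry
    2 [] (.entry 0 [] .fin (.entry 2 [] .fin .fin)) .fin)) (.entry 0 [(3,0,3)] (.entry 0 [] (.entry 0 [] .fin
    (.entry 1 [] .fin .fin)) (.entry 1 [] (.entry 0 [] .fin (.entry 2 [] .fin .fin)) (.entry 2 [] (.entry 1 []
    .fin (.entry 2 [] .fin .fin)) .fin))) (.entry 2 [] (.entry 0 [(2,0,4)] (.entry 0 [] .fin (.entry 1 [] .fin
    .fin)) (.entry 2 [] (.entry 0 [] .fin (.entry 2 [] .fin .fin)) .fin)) .fin)))) .fin))) (.entry 2 [(3,1,2),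
    (2,1,3), (2,1,2)] (.entry 2 [(0,1,3), (1,1,3), (0,2,3), (1,2,3), (0,2,4), (0,3,3)] (.entry 2 [(1,0,4),
    (2,0,4)] (.entry 2 [(0,1,5)] (.entry 0 [] .fin (.entry 2 [] .fin .fin)) (.entry 1 [] (.entry 0 [] .fin (.entry
    2 [] .fin .fin)) .fin)) (.entry 2 [(1,1,4)] (.entry 2 [(1,0,5)] (.entry 1 [] .fin (.entry 2 [] .fin .fin))
    (.entry 0 [] (.entry 0 [] .fin (.entry 2 [] .fin .fin)) .fin)) (.entry 2 [(1,0,5)] (.entry 0 [] (.entry 0 []
    .fin (.entry 1 [] .fin .fin)) (.entry 1 [] (.entry 0 [] .fin (.entry 2 [] .fin .fin)) (.entry 2 [] (.entry 1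
    [] .fin (.entry 2 [] .fin .fin)) .fin))) (.entry 0 [] (.entry 2 [(2,0,4)] (.entry 1 [] .fin (.entry 2 [] .fin
    .fin)) (.entry 0 [] (.entry 0 [] .fin (.entry 2 [] .fin .fin)) .fin)) .fin)))) (.entry 1 [(0,1,4), (0,1,5)]
    (.entry 1 [(0,2,3), (0,2,4)] (.entry 1 [(1,3,2)] (.entry 1 [] .fin (.entry 2 [] .fin .fin)) (.entry 0 []
    (.entry 1 [] .fin (.entry 2 [] .fin .fin)) .fin)) (.entry 1 [(1,2,3)] (.entry 1 [(0,3,3)] (.entry 0 [] .fin
    (.entry 1 [] .fin .fin)) (.entry 2 [] (.entry 1 [] .fin (.entry 2 [] .fin .fin)) .fin)) (.entry 1 [(0,3,3)]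
    (.entry 0 [] (.entry 1 [] .fin (.entry 2 [] .fin .fin)) (.entry 1 [] (.entry 0 [] .fin (.entry 1 [] .fin
    .fin)) (.entry 2 [] (.entry 0 [] .fin (.entry 2 [] .fin .fin)) .fin))) (.entry 2 [] (.entry 1 [(1,2,3)]
    (.entry 1 [] .fin (.entry 2 [] .fin .fin)) (.entry 0 [] (.entry 1 [] .fin (.entry 2 [] .fin .fin)) .fin))
    .fin)))) (.entry 1 [(1,1,4)] (.entry 1 [(0,2,3), (0,2,4)] (.entry 1 [(1,3,2)] (.entry 1 [] .fin (.entry 2 []
    .fin .fin)) (.entry 0 [] (.entry 1 [] .fin (.entry 2 [] .fin .fin)) .fin)) (.entry 1 [(1,2,3)] (.entry 1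
    [(0,3,3)] (.entry 0 [] .fin (.entry 1 [] .fin .fin)) (.entry 2 [] (.entry 1 [] .fin (.entry 2 [] .fin .fin))
    .fin)) (.entry 1 [(0,3,3)] (.entry 0 [] (.entry 1 [] .fin (.entry 2 [] .fin .fin)) (.entry 1 [] (.entry 0 []
    .fin (.entry 1 [] .fin .fin)) (.entry 2 [] (.entry 0 [] .fin (.entry 2 [] .fin .fin)) .fin))) (.entry 2 []
    (.entry 1 [(0,2,4)] (.entry 0 [] .fin (.entry 1 [] .fin .fin)) (.entry 2 [] (.entry 1 [] .fin (.entry 2 []
    .fin .fin)) .fin)) .fin)))) .fin))) (.entry 0 [] (.entry 2 [(2,0,2), (2,1,2), (3,0,2), (3,1,2), (3,0,3),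
    (4,0,2)] (.entry 2 [(1,1,3), (1,2,3)] (.entry 2 [(2,0,4)] (.entry 1 [] .fin (.entry 2 [] .fin .fin)) (.entry 0
    [] (.entry 1 [] .fin (.entry 2 [] .fin .fin)) .fin)) (.entry 2 [(2,1,3)] (.entry 2 [(1,1,4)] (.entry 0 [] .fin
    (.entry 2 [] .fin .fin)) (.entry 1 [] (.entry 1 [] .fin (.entry 2 [] .fin .fin)) .fin)) (.entry 2 [(1,1,4)]
    (.entry 0 [] (.entry 1 [] .fin (.entry 2 [] .fin .fin)) (.entry 1 [] (.entry 0 [] .fin (.entry 1 [] .fin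
    .fin)) (.entry 2 [] (.entry 0 [] .fin (.entry 2 [] .fin .fin)) .fin))) (.entry 1 [] (.entry 2 [(1,2,3)]
    (.entry 0 [] .fin (.entry 2 [] .fin .fin)) (.entry 1 [] (.entry 1 [] .fin (.entry 2 [] .fin .fin)) .fin))
    .fin)))) (.entry 0 [(2,0,3), (2,0,4)] (.entry 0 [(3,0,2), (3,0,3)] (.entry 0 [(4,1,1)] (.entry 0 [] .fin
    (.entry 2 [] .fin .fin)) (.entry 1 [] (.entry 0 [] .fin (.entry 2 [] .fin .fin)) .fin)) (.entry 0 [(3,1,2)]
    (.entry 0 [(4,0,2)] (.entry 0 [] .fin (.entry 1 [] .fin .fin)) (.entry 2 [] (.entry 0 [] .fin (.entry 2 []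
    .fin .fin)) .fin)) (.entry 0 [(4,0,2)] (.entry 0 [] (.entry 0 [] .fin (.entry 1 [] .fin .fin)) (.entry 1 []
    (.entry 0 [] .fin (.entry 2 [] .fin .fin)) (.entry 2 [] (.entry 1 [] .fin (.entry 2 [] .fin .fin)) .fin)))
    (.entry 2 [] (.entry 0 [(3,1,2)] (.entry 0 [] .fin (.entry 2 [] .fin .fin)) (.entry 1 [] (.entry 0 [] .fin
    (.entry 2 [] .fin .fin)) .fin)) .fin)))) (.entry 0 [(2,1,3)] (.entry 0 [(3,0,2), (3,0,3)] (.entry 0 [(4,1,1)]
    (.entry 0 [] .fin (.entry 2 [] .fin .fin)) (.entry 1 [] (.entry 0 [] .fin (.entry 2 [] .fin .fin)) .fin))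
    (.entry 0 [(3,1,2)] (.entry 0 [(4,0,2)] (.entry 0 [] .fin (.entry 1 [] .fin .fin)) (.entry 2 [] (.entry 0 []
    .fin (.entry 2 [] .fin .fin)) .fin)) (.entry 0 [(4,0,2)] (.entry 0 [] (.entry 0 [] .fin (.entry 1 [] .fin
    .fin)) (.entry 1 [] (.entry 0 [] .fin (.entry 2 [] .fin .fin)) (.entry 2 [] (.entry 1 [] .fin (.entry 2 []
    .fin .fin)) .fin))) (.entry 2 [] (.entry 0 [(3,0,3)] (.entry 0 [] .fin (.entry 1 [] .fin .fin)) (.entry 2 []
    (.entry 0 [] .fin (.entry 2 [] .fin .fin)) .fin)) .fin)))) .fin))) (.entry 1 [] (.entry 2 [(0,2,2), (1,2,2),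
    (0,3,2), (1,3,2), (0,3,3), (0,4,2)] (.entry 2 [(1,1,3), (2,1,3)] (.entry 2 [(0,2,4)] (.entry 0 [] .fin (.entry
    2 [] .fin .fin)) (.entry 1 [] (.entry 0 [] .fin (.entry 2 [] .fin .fin)) .fin)) (.entry 2 [(1,2,3)] (.entry 2
    [(1,1,4)] (.entry 1 [] .fin (.entry 2 [] .fin .fin)) (.entry 0 [] (.entry 0 [] .fin (.entry 2 [] .fin .fin))
    .fin)) (.entry 2 [(1,1,4)] (.entry 0 [] (.entry 0 [] .fin (.entry 1 [] .fin .fin)) (.entry 1 [] (.entry 0 []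
    .fin (.entry 2 [] .fin .fin)) (.entry 2 [] (.entry 1 [] .fin (.entry 2 [] .fin .fin)) .fin))) (.entry 0 []
    (.entry 2 [(2,1,3)] (.entry 1 [] .fin (.entry 2 [] .fin .fin)) (.entry 0 [] (.entry 0 [] .fin (.entry 2 []
    .fin .fin)) .fin)) .fin)))) (.entry 1 [(0,2,3), (0,2,4)] (.entry 1 [(0,3,2), (0,3,3)] (.entry 1 [(1,4,1)]
    (.entry 1 [] .fin (.entry 2 [] .fin .fin)) (.entry 0 [] (.entry 1 [] .fin (.entry 2 [] .fin .fin)) .fin))
    (.entry 1 [(1,3,2)] (.entry 1 [(0,4,2)] (.entry 0 [] .fin (.entry 1 [] .fin .fin)) (.entry 2 [] (.entry 1 []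
    .fin (.entry 2 [] .fin .fin)) .fin)) (.entry 1 [(0,4,2)] (.entry 0 [] (.entry 1 [] .fin (.entry 2 [] .fin
    .fin)) (.entry 1 [] (.entry 0 [] .fin (.entry 1 [] .fin .fin)) (.entry 2 [] (.entry 0 [] .fin (.entry 2 []
    .fin .fin)) .fin))) (.entry 2 [] (.entry 1 [(1,3,2)] (.entry 1 [] .fin (.entry 2 [] .fin .fin)) (.entry 0 []
    (.entry 1 [] .fin (.entry 2 [] .fin .fin)) .fin)) .fin)))) (.entry 1 [(1,2,3)] (.entry 1 [(0,3,2), (0,3,3)]
    (.entry 1 [(1,4,1)] (.entry 1 [] .fin (.entry 2 [] .fin .fin)) (.entry 0 [] (.entry 1 [] .fin (.entry 2 []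
    .fin .fin)) .fin)) (.entry 1 [(1,3,2)] (.entry 1 [(0,4,2)] (.entry 0 [] .fin (.entry 1 [] .fin .fin)) (.entry
    2 [] (.entry 1 [] .fin (.entry 2 [] .fin .fin)) .fin)) (.entry 1 [(0,4,2)] (.entry 0 [] (.entry 1 [] .fin
    (.entry 2 [] .fin .fin)) (.entry 1 [] (.entry 0 [] .fin (.entry 1 [] .fin .fin)) (.entry 2 [] (.entry 0 []
    .fin (.entry 2 [] .fin .fin)) .fin))) (.entry 2 [] (.entry 1 [(0,3,3)] (.entry 0 [] .fin (.entry 1 [] .fin
    .fin)) (.entry 2 [] (.entry 1 [] .fin (.entry 2 [] .fin .fin)) .fin)) .fin)))) .fin))) .fin))))) .fin)))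

theorem covAll_mtree : covAll mtree 6 (0, 0, 0) [] = true := by decide +kernel

theorem valid_mtree : valid mtree 5 (0, 0, 0) [] = true := by decide +kernel

theorem SV_zero {n : ℕ} (hn : n ≤ 6) : SV n (default : Q 3 n) {default} := by
  cases n with
  | zero => trivial
  | succ m =>
    have htri : tri (default : Q 3 (m + 1)) = (0, 0, 0) := rfl
    intro z
    refine valid_sound mtree 5 [] default {default} (by rw [htri]; exact valid_mtree) (by rw [htri]; simp [lv]; omega) ?_ m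
      (by omega) (by rw [htri]; simp [lv]; omega) z ?_
    · intro q hq _ hne
      exact absurd (Set.mem_singleton_iff.1 hq).symm hne
    · have := covAll_cov covAll_mtree (by simp [lv]; omega) z
      rw [htri]; exact this

end Pool.Agent.J6H21.CG
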