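import Pool.Agent.J6H21.CG.Maker

set_option autoImplicit false

/-!
# Chain games on the simplex posets: the value of the sequence game on `Q^3_n` for `n ≤ 6`
-/

namespace Pool.Agent.J6H21.CG

theorem SV_anti {d n : ℕ} : ∀ {r : ℕ} {x : Q d n} {C C' : Set (Q d n)}, SV r x C → C' ⊆ C → SV r x C'
  | 0, _, _, _, _, _ => trivial
  | r + 1, _, _, _, h, hC => fun z => by
      obtain ⟨u, h1, h2, h3, h4⟩ := h z
      exact ⟨u, h1, fun h5 => h2 (hC h5), h3, SV_anti h4 (Set.union_subset_union_left _ hC)⟩

/-- Maker's invariant: his first moves are a chain through consecutive levels, and he can continue to the top -/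
def GoodM {n : ℕ} (p : ℕ → Q 3 n) (j : ℕ) : Prop :=
  (∀ i < j, Up (p (2 * i)) (p (2 * i + 2))) ∧ SV (n - j) (p (2 * j)) (p '' Set.Iio (2 * j + 1))

theorem goodM_congr {n : ℕ} {p p' : ℕ → Q 3 n} {j : ℕ} (h : ∀ i < 2 * j + 1, p i = p' i) (hg : GoodM p j) :
    GoodM p' j := by
  have himg : p '' Set.Iio (2 * j + 1) = p' '' Set.Iio (2 * j + 1) := Set.image_congr fun i hi => h i hi
  obtain ⟨h1, h2⟩ := hg
  refine ⟨fun i hi => ?_, ?_⟩
  · rw [← h _ (by omega), ← h _ (by omega)]
    exact h1 i hi
  · rw [← himg, ← h _ (by omega)]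
    exact h2

/-- the invariant for lists -/
def GoodML {n : ℕ} (h : List (Q 3 n)) : Prop :=
  ∃ j ≤ n, h.length = 2 * j + 1 ∧ GoodM (fun i => h.getD i default) j

theorem goodML_hist {n : ℕ} {p : ℕ → Q 3 n} {j : ℕ} (hj : j ≤ n) : GoodML (hist p (2 * j + 1)) ↔ GoodM p j := by
  have h : ∀ i < 2 * j + 1, (hist p (2 * j + 1)).getD i default = p i := by
    intro i hi
    simp [hist, List.getD_eq_getElem?_getD, hi]
  constructor
  · rintro ⟨j', hj', hlen, hg⟩
    rw [hist_length] at hlen
    have : j' = j := by omega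
    subst this
    exact goodM_congr h hg
  · intro hg
    exact ⟨j, hj, hist_length _ _, goodM_congr (fun i hi => (h i hi).symm) hg⟩

open Classical in
/-- Maker's strategy -/
noncomputable def mstrat {n : ℕ} (h : List (Q 3 n)) : Q 3 n :=
  if H : ∃ u, u ∉ h ∧ GoodML (h ++ [u]) then H.choose else if H2 : ∃ u, u ∉ h then H2.choose else default

theorem mstrat_legal (n : ℕ) : Legal (mstrat (n := n)) := by
  intro h _ hl
  unfold mstrat
  split
  · rename_i H
    exact H.choose_spec.1
  · split
    · rename_i H2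
      exact H2.choose_spec
    · rename_i H2
      exact absurd (exists_not_mem hl) H2

theorem mstrat_spec {n : ℕ} {h : List (Q 3 n)} (H : ∃ u, u ∉ h ∧ GoodML (h ++ [u])) : GoodML (h ++ [mstrat h]) := by
  unfold mstrat
  rw [dif_pos H]
  exact H.choose_spec.2

theorem image_univ {P : Type} [Finite P] {p : ℕ → P} (hp : IsPlay p) {m : ℕ} (hm : Nat.card P ≤ m) :
    p '' Set.Iio m = Set.univ := by
  have h1 : p '' Set.Iio (Nat.card P) = Set.univ := by
    rw [Set.eq_univ_iff_ncard, Set.InjOn.ncard_image hp]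
    simp
  refine Set.eq_univ_of_univ_subset ?_
  rw [← h1]
  exact Set.image_mono fun i hi => lt_of_lt_of_le hi hm

theorem goodM_play {n : ℕ} (hn : n ≤ 6) {p : ℕ → Q 3 n} (hp : IsPlay p) (hf : Follows 0 mstrat p) :
    ∀ j ≤ n, 2 * j < Nat.card (Q 3 n) ∧ GoodM p j := by
  intro j
  induction j with
  | zero =>
    intro _
    have hcard : 0 < Nat.card (Q 3 n) := Nat.card_pos
    refine ⟨by omega, ?_⟩
    have hex : ∃ u : Q 3 n, u ∉ hist p 0 ∧ GoodML (hist p 0 ++ [u]) := by
      refine ⟨default, by simp [hist], 0, by omega, by simp [hist], fun i hi => by omega, ?_⟩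
      have e1 : (fun i => (hist p 0 ++ [(default : Q 3 n)]).getD i default) '' Set.Iio (2 * 0 + 1) ⊆ {default} := by
        rintro _ ⟨i, hi, rfl⟩
        rw [Set.mem_Iio] at hi
        have : i = 0 := by omega
        subst this
        simp [hist]
      have e2 : (fun i => (hist p 0 ++ [(default : Q 3 n)]).getD i default) (2 * 0) = default := by simp [hist]
      rw [e2]
      exact SV_anti (SV_zero hn) e1
    have h1 := mstrat_spec hex
    have h2 : p 0 = mstrat (hist p 0) := hf 0 hcard rfl
    rw [← h2, ← hist_succ] at h1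
    exact (goodML_hist (j := 0) (by omega)).1 h1
  | succ j ih =>
    intro hj
    obtain ⟨_, hup, hsv⟩ := ih (by omega)
    have e : n - j = (n - (j + 1)) + 1 := by omega
    rw [e] at hsv
    have hc1 : 2 * j + 1 < Nat.card (Q 3 n) := by
      by_contra hc
      obtain ⟨u, _, h2, _⟩ := hsv default
      rw [image_univ hp (by omega)] at h2
      exact h2 trivial
    obtain ⟨u, h1, h2, h3, h4⟩ := hsv (p (2 * j + 1))
    have hu : u ∉ p '' Set.Iio (2 * j + 2) := by
      rintro ⟨i, hi, rfl⟩
      rw [Set.mem_Iio] at hi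
      by_cases hi2 : i = 2 * j + 1
      · subst hi2; exact h3 rfl
      · exact h2 ⟨i, Set.mem_Iio.2 (by omega), rfl⟩
    have hc2 : 2 * j + 2 < Nat.card (Q 3 n) := by
      by_contra hc
      rw [image_univ hp (by omega)] at hu
      exact hu trivial
    refine ⟨by omega, ?_⟩
    have hex : ∃ u : Q 3 n, u ∉ hist p (2 * j + 2) ∧ GoodML (hist p (2 * j + 2) ++ [u]) := by
      refine ⟨u, fun hmem => ?_, ?_⟩
      · obtain ⟨i, hi, hiu⟩ := mem_hist.1 hmem
        exact hu ⟨i, Set.mem_Iio.2 hi, hiu⟩
      · have e1 : hist p (2 * j + 2) ++ [u] = hist (Function.update p (2 * j + 2) u) (2 * (j + 1) + 1) := by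
          have e2 : 2 * (j + 1) + 1 = (2 * j + 2) + 1 := by ring
          rw [e2, hist_succ (Function.update p (2 * j + 2) u) (2 * j + 2), Function.update_self]
          congr 1
          unfold hist
          refine List.map_congr_left fun i hi => ?_
          rw [List.mem_range] at hi
          rw [Function.update_of_ne (by omega)]
        rw [e1, goodML_hist hj]
        refine ⟨fun i hi => ?_, ?_⟩
        · rcases Nat.lt_succ_iff_lt_or_eq.1 hi with hi | hi
          · rw [Function.update_of_ne (by omega), Function.update_of_ne (by omega)]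
            exact hup i hi
          · subst hi
            rw [Function.update_of_ne (by omega), Function.update_self]
            exact h1
        · have e3 : Function.update p (2 * j + 2) u (2 * (j + 1)) = u := by
            have e4 : 2 * (j + 1) = 2 * j + 2 := by ring
            rw [e4, Function.update_self]
          rw [e3]
          refine SV_anti h4 ?_
          rintro _ ⟨i, hi, rfl⟩
          rw [Set.mem_Iio] at hi
          by_cases hi2 : i = 2 * j + 2
          · subst hi2
            rw [Function.update_self]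
            exact Or.inr (Or.inr rfl)
          · rw [Function.update_of_ne hi2]
            by_cases hi3 : i = 2 * j + 1
            · subst hi3
              exact Or.inr (Or.inl rfl)
            · exact Or.inl ⟨i, Set.mem_Iio.2 (by omega), rfl⟩
    have h5 := mstrat_spec hex
    have h6 : p (2 * j + 2) = mstrat (hist p (2 * j + 2)) := hf (2 * j + 2) (by omega) (by omega)
    rw [← h6, ← hist_succ] at h5
    have e5 : 2 * j + 2 + 1 = 2 * (j + 1) + 1 := by ring
    rw [e5] at h5
    exact (goodML_hist hj).1 h5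

theorem maker_three {n : ℕ} (hn : n ≤ 6) : ∃ s : List (Q 3 n) → Q 3 n, Legal s ∧ ∀ p : ℕ → Q 3 n, IsPlay p →
    Follows 0 s p → SeqScore p (n + 1) := by
  refine ⟨mstrat, mstrat_legal n, fun p hp hf => ?_⟩
  have h := goodM_play hn hp hf
  refine ⟨fun j => 2 * j, fun a b hab => ?_, fun j => ⟨(h j (by omega)).1, by simp⟩, ?_⟩
  · have : (a : ℕ) < b := hab
    show 2 * (a : ℕ) < 2 * b
    omega
  · refine Fin.strictMono_iff_lt_succ.2 fun i => ?_
    have h1 := (h n le_rfl).2.1 i (by omega)
    have h2 : p (2 * (i : ℕ)) < p (2 * (i : ℕ) + 2) := by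
      refine lt_of_le_of_ne h1.1 fun heq => ?_
      have := h1.2
      rw [heq] at this
      omega
    have e : 2 * ((i.succ : Fin (n + 1)) : ℕ) = 2 * (i : ℕ) + 2 := by simp; ring
    show p (2 * ((i.castSucc : Fin (n + 1)) : ℕ)) < p (2 * ((i.succ : Fin (n + 1)) : ℕ))
    rw [e]
    exact h2

theorem gseq_eq {n : ℕ} (hn : n ≤ 6) : gseq (Q 3 n) = n + 1 := by
  refine le_antisymm ((gseq_le_of_breaker (breaker_three n)).trans (Nat.sub_le _ _)) ?_
  refine le_csSup ⟨n + 1, ?_⟩ (maker_three hn)
  rintro k ⟨s, hs, hk⟩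
  obtain ⟨s', hs', h⟩ := breaker_three n
  obtain ⟨p, hp, h0, h1⟩ := exists_play hs hs'
  exact (h p hp h1 k (hk p hp h0)).trans (Nat.sub_le _ _)

end Pool.Agent.J6H21.CG
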